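import Pool.Agent.Q41.EG.Quad

/-! The elliptic integrals and the number `m`. -/

set_option autoImplicit false

open MeasureTheory Set Filter Topology

namespace Q41.EG

/-- the complete elliptic integral of the first kind -/
noncomputable def eK (m : ℝ) : ℝ := ∫ φ in (0:ℝ)..(Real.pi / 2), 1 / √(1 - m * Real.sin φ ^ 2)

/-- the complete elliptic integral of the second kind -/
noncomputable def eE (m : ℝ) : ℝ := ∫ φ in (0:ℝ)..(Real.pi / 2), √(1 - m * Real.sin φ ^ 2)

variable {m : ℝ}

theorem arg0 (h1 : 0 < m) (h2 : m < 1) (φ : ℝ) : 0 < 1 - m * Real.sin φ ^ 2 := by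
  have := Real.sin_sq_le_one φ
  nlinarith

theorem c1 (h1 : 0 < m) (h2 : m < 1) : Continuous fun φ : ℝ => 1 / √(1 - m * Real.sin φ ^ 2) := by
  apply Continuous.div continuous_const (by fun_prop)
  intro φ
  exact (Real.sqrt_pos.mpr (arg0 h1 h2 φ)).ne'

theorem c2 (m : ℝ) : Continuous fun φ : ℝ => √(1 - m * Real.sin φ ^ 2) := by fun_prop

/-- the combination -/
noncomputable def Fm (m : ℝ) : ℝ :=
  ∫ φ in (0:ℝ)..(Real.pi / 2), (2 * √(1 - m * Real.sin φ ^ 2) - 1 / √(1 - m * Real.sin φ ^ 2))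

theorem Fm_eq (h1 : 0 < m) (h2 : m < 1) : Fm m = 2 * eE m - eK m := by
  unfold Fm eE eK
  rw [intervalIntegral.integral_sub (((c2 m).const_mul 2).intervalIntegrable _ _)
    ((c1 h1 h2).intervalIntegrable _ _), intervalIntegral.integral_const_mul]

theorem even_int {q : ℝ → ℝ} (hq : Continuous q) (he : ∀ x, q (-x) = q x) (a : ℝ) :
    ∫ x in (-a)..a, q x = 2 * ∫ x in (0:ℝ)..a, q x := by
  rw [← intervalIntegral.integral_add_adjacent_intervals (hq.intervalIntegrable (-a) 0)
    (hq.intervalIntegrable 0 a)]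
  have h := intervalIntegral.integral_comp_neg (a := 0) (b := a) q
  rw [neg_zero] at h
  rw [← h]
  simp only [he]
  ring

theorem g00 (h1 : 1 / 2 < m) (h2 : m < 1) : 0 < g m 0 0 := by
  have e : GG m 0 0 = ((∫ φ in (-(Real.pi / 2))..(Real.pi / 2), 1 / Dl m φ : ℝ) : ℂ) := by
    rw [← intervalIntegral.integral_ofReal]
    unfold GG
    congr 1
    ext φ
    simp
  unfold g
  rw [e, Complex.ofReal_re]
  have hpi := Real.pi_pos
  apply intervalIntegral.intervalIntegral_pos_of_pos_on
  · apply Continuous.intervalIntegrable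
    exact c1 (by linarith) h2
  · intro x _
    have := Dl_pos h1 h2 x
    positivity
  · linarith

theorem g20 (h1 : 1 / 2 < m) (h2 : m < 1) : g m 2 0 = Rr m ^ 2 * (2 * Fm m) := by
  have hq : Continuous fun φ : ℝ => 2 * √(1 - m * Real.sin φ ^ 2) - 1 / √(1 - m * Real.sin φ ^ 2) :=
    ((c2 m).const_mul 2).sub (c1 (by linarith) h2)
  have hev := even_int hq (fun x => by rw [Real.sin_neg, neg_sq]) (Real.pi / 2)
  unfold Fm
  rw [← hev, ← intervalIntegral.integral_const_mul]
  have hi : IntervalIntegrable (fun φ => zz m φ ^ 2 * Complex.exp (zz m φ * (0:ℝ)) / (Dl m φ : ℂ))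
    volume (-(Real.pi / 2)) (Real.pi / 2) := (F_cont h1 h2 2 0).intervalIntegrable _ _
  have h := Complex.reCLM.intervalIntegral_comp_comm hi
  unfold g
  have e : (GG m 2 0).re = Complex.reCLM (∫ φ in (-(Real.pi / 2))..(Real.pi / 2),
    zz m φ ^ 2 * Complex.exp (zz m φ * (0:ℝ)) / (Dl m φ : ℂ)) := rfl
  rw [e, ← h]
  congr 1
  ext φ
  have hD := Dl_pos h1 h2 φ
  have hsq := Dl_sq h1 h2 φ
  simp only [Complex.ofReal_zero, mul_zero, Complex.exp_zero, mul_one]
  rw [Complex.reCLM_apply, Complex.div_ofReal_re, sq (zz m φ), Complex.mul_re, zz_re, zz_im]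
  have e3 : √(1 - m * Real.sin φ ^ 2) = Dl m φ := rfl
  rw [e3]
  have hm : √m ^ 2 = m := Real.sq_sqrt (by linarith)
  field_simp
  linear_combination (-Rr m ^ 2) * hsq - Rr m ^ 2 * Real.sin φ ^ 2 * hm

/-- strict monotonicity -/
theorem Fm_anti {m m' : ℝ} (h1 : 0 < m) (h2 : m < m') (h3 : m' < 1) : Fm m' < Fm m := by
  have hpi := Real.pi_pos
  have hc : ∀ {n : ℝ}, 0 < n → n < 1 → Continuous fun φ : ℝ =>
      2 * √(1 - n * Real.sin φ ^ 2) - 1 / √(1 - n * Real.sin φ ^ 2) := fun {n} a b =>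
    ((c2 n).const_mul 2).sub (c1 a b)
  have hle : ∀ x, 2 * √(1 - m' * Real.sin x ^ 2) - 1 / √(1 - m' * Real.sin x ^ 2) ≤
      2 * √(1 - m * Real.sin x ^ 2) - 1 / √(1 - m * Real.sin x ^ 2) := by
    intro x
    have p1 := Real.sqrt_pos.mpr (arg0 (h1.trans h2) h3 x)
    have h4 : √(1 - m' * Real.sin x ^ 2) ≤ √(1 - m * Real.sin x ^ 2) :=
      Real.sqrt_le_sqrt (by nlinarith [sq_nonneg (Real.sin x)])
    have h5 := one_div_le_one_div_of_le p1 h4
    linarith
  apply intervalIntegral.integral_lt_integral_of_continuousOn_of_le_of_exists_lt (by linarith)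
    (hc (h1.trans h2) h3).continuousOn (hc h1 (h2.trans h3)).continuousOn
  · intro x _
    exact hle x
  · refine ⟨Real.pi / 2, ⟨by linarith, le_rfl⟩, ?_⟩
    rw [Real.sin_pi_div_two]
    have p1 : 0 < √(1 - m' * 1 ^ 2) := Real.sqrt_pos.mpr (by linarith)
    have h4 : √(1 - m' * 1 ^ 2) < √(1 - m * 1 ^ 2) :=
      Real.sqrt_lt_sqrt (by linarith) (by linarith)
    have h5 := one_div_lt_one_div_of_lt p1 h4
    generalize √(1 - m' * 1 ^ 2) = d' at *
    generalize √(1 - m * 1 ^ 2) = d at *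
    linarith

theorem Fm_half : 0 < Fm (1 / 2) := by
  have hpi := Real.pi_pos
  apply intervalIntegral.intervalIntegral_pos_of_pos_on
  · apply Continuous.intervalIntegrable
    exact ((c2 (1/2)).const_mul 2).sub (c1 (by norm_num) (by norm_num))
  · intro x hx
    have hp := Real.sqrt_pos.mpr (arg0 (m := 1/2) (by norm_num) (by norm_num) x)
    have hs := Real.sq_sqrt (arg0 (m := 1/2) (by norm_num) (by norm_num) x).le
    have hcos : 0 < Real.cos x := Real.cos_pos_of_mem_Ioo ⟨by linarith [hx.1], hx.2⟩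
    have hsc := Real.sin_sq_add_cos_sq x
    set d := √(1 - 1 / 2 * Real.sin x ^ 2) with hd
    have e : 2 * d - 1 / d = Real.cos x ^ 2 / d := by
      field_simp
      rw [hs]
      linarith
    rw [e]
    positivity
  · linarith

theorem inv_lin (e : ℝ) (he : 0 < e) :
    ∫ φ in (0:ℝ)..(Real.pi / 2), (e + Real.pi / 2 - φ)⁻¹ = Real.log ((e + Real.pi / 2) / e) := by
  have hpi := Real.pi_pos
  have h := intervalIntegral.integral_comp_sub_left (a := 0) (b := Real.pi / 2)
    (fun x : ℝ => x⁻¹) (e + Real.pi / 2)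
  rw [h, sub_zero, add_sub_cancel_right, integral_inv_of_pos he (by linarith)]

theorem Fm_neg : Fm (399 / 400) < 0 := by
  have hpi := Real.pi_pos
  rw [Fm_eq (by norm_num) (by norm_num)]
  have hE : eE (399 / 400) ≤ Real.pi / 2 := by
    have : eE (399 / 400) ≤ ∫ φ in (0:ℝ)..(Real.pi / 2), (1:ℝ) := by
      apply intervalIntegral.integral_mono_on (by linarith) ((c2 _).intervalIntegrable _ _)
        intervalIntegrable_const
      intro x _
      exact Real.sqrt_le_one.mpr (by nlinarith [sq_nonneg (Real.sin x)])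
    rw [intervalIntegral.integral_const] at this
    simpa using this
  have hK : Real.log ((1/20 + Real.pi / 2) / (1/20)) ≤ eK (399 / 400) := by
    rw [← inv_lin (1/20) (by norm_num)]
    apply intervalIntegral.integral_mono_on (by linarith)
    · apply ContinuousOn.intervalIntegrable
      apply ContinuousOn.inv₀ (by fun_prop)
      intro x hx
      rw [uIcc_of_le (by linarith)] at hx
      have := hx.2
      linarith
    · exact (c1 (by norm_num) (by norm_num)).intervalIntegrable _ _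
    · intro x hx
      have hp := Real.sqrt_pos.mpr (arg0 (m := 399/400) (by norm_num) (by norm_num) x)
      rw [← one_div]
      apply one_div_le_one_div_of_le hp
      have hcos : 0 ≤ Real.cos x := Real.cos_nonneg_of_mem_Icc ⟨by linarith [hx.1], hx.2⟩
      have hcos2 : Real.cos x ≤ Real.pi / 2 - x := by
        rw [← Real.sin_pi_div_two_sub]
        exact Real.sin_le (by linarith [hx.2])
      have h4 : √(1 - 399/400 * Real.sin x ^ 2) ≤ 1/20 + Real.cos x := by
        rw [Real.sqrt_le_left (by linarith)]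
        have hsc := Real.sin_sq_add_cos_sq x
        nlinarith
      linarith
  have hlog : 3.4 < Real.log ((1/20 + Real.pi / 2) / (1/20)) := by
    have h32 : (32:ℝ) ≤ (1/20 + Real.pi / 2) / (1/20) := by
      have := Real.pi_gt_d2
      rw [le_div_iff₀ (by norm_num)]
      linarith
    have h1 : Real.log 32 ≤ Real.log ((1/20 + Real.pi / 2) / (1/20)) :=
      Real.log_le_log (by norm_num) h32
    have h2 : Real.log 32 = 5 * Real.log 2 := by
      rw [show (32:ℝ) = 2 ^ 5 by norm_num, Real.log_pow]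
      norm_num
    have := Real.log_two_gt_d9
    linarith
  have := Real.pi_lt_d2
  linarith

/-- continuity on an interval -/
theorem Fm_cont : ContinuousOn Fm (Icc (1/2) (399/400)) := by
  have hpos : ∀ m φ : ℝ, 0 < √(max (1 - m * Real.sin φ ^ 2) (1/400)) := fun m φ =>
    Real.sqrt_pos.mpr (lt_max_of_lt_right (by norm_num))
  have hc : Continuous (fun p : ℝ × ℝ => √(max (1 - p.1 * Real.sin p.2 ^ 2) (1/400))) := by
    fun_prop
  have h1 : Continuous fun m : ℝ => ∫ φ in (0:ℝ)..(Real.pi / 2),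
      (2 * √(max (1 - m * Real.sin φ ^ 2) (1/400)) -
        1 / √(max (1 - m * Real.sin φ ^ 2) (1/400))) := by
    apply intervalIntegral.continuous_parametric_intervalIntegral_of_continuous'
    show Continuous (fun p : ℝ × ℝ => 2 * √(max (1 - p.1 * Real.sin p.2 ^ 2) (1/400)) -
        1 / √(max (1 - p.1 * Real.sin p.2 ^ 2) (1/400)))
    exact (hc.const_mul 2).sub (continuous_const.div hc fun p => (hpos p.1 p.2).ne')
  refine h1.continuousOn.congr fun m hm => ?_
  unfold Fm
  congr 1
  ext φ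
  have : (1:ℝ)/400 ≤ 1 - m * Real.sin φ ^ 2 := by
    have := Real.sin_sq_le_one φ
    have := sq_nonneg (Real.sin φ)
    nlinarith [hm.1, hm.2]
  rw [max_eq_left this]

theorem exists_m : ∃ m : ℝ, 1 / 2 < m ∧ m < 1 ∧ Fm m = 0 := by
  have h := intermediate_value_Icc' (show (1/2:ℝ) ≤ 399/400 by norm_num) Fm_cont
  obtain ⟨m, hm, h0⟩ := h ⟨Fm_neg.le, Fm_half.le⟩
  refine ⟨m, lt_of_le_of_ne hm.1 ?_, by linarith [hm.2], h0⟩
  intro he
  rw [← he] at h0
  have := Fm_half
  linarith

end Q41.EG
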