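import Mathlib

/-! Functions `f` with `x f²` and `x f''²` integrable on the half line. -/

set_option autoImplicit false

open MeasureTheory Set Filter Topology

namespace Q41.EG

/-- admissible functions with their derivatives -/
structure Adm (f f1 f2 : ℝ → ℝ) : Prop where
  h1 : ∀ x, 0 < x → HasDerivAt f (f1 x) x
  h2 : ∀ x, 0 < x → HasDerivAt f1 (f2 x) x
  m2 : AEStronglyMeasurable f2 (volume.restrict (Ioi 0))
  iA : IntegrableOn (fun x => x * f x ^ 2) (Ioi 0)
  iC : IntegrableOn (fun x => x * f2 x ^ 2) (Ioi 0)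

variable {f f1 f2 : ℝ → ℝ}

theorem Adm.cont (h : Adm f f1 f2) : ContinuousOn f (Ioi 0) := fun x hx =>
  (h.h1 x hx).continuousAt.continuousWithinAt

theorem Adm.cont1 (h : Adm f f1 f2) : ContinuousOn f1 (Ioi 0) := fun x hx =>
  (h.h2 x hx).continuousAt.continuousWithinAt

theorem uIcc_pos {s t : ℝ} (hs : 0 < s) (ht : 0 < t) : uIcc s t ⊆ Ioi 0 := by
  intro x hx
  have := hx.1
  have h1 : 0 < min s t := lt_min hs ht
  exact lt_of_lt_of_le h1 this

/-- the arithmetic-geometric mean inequality with a weight -/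
theorem amgm {x y : ℝ} (hx : 0 < x) : |y| ≤ (x * y ^ 2 + x⁻¹) / 2 := by
  have h1 : 0 ≤ (x * |y| - 1) ^ 2 := sq_nonneg _
  have h2 : x⁻¹ * (x * |y| - 1) ^ 2 = x * |y| ^ 2 - 2 * |y| + x⁻¹ := by
    field_simp; ring
  have h3 : 0 ≤ x⁻¹ * (x * |y| - 1) ^ 2 := by positivity
  rw [h2, sq_abs] at h3
  linarith

theorem Adm.dom (h : Adm f f1 f2) {s t : ℝ} (hs : 0 < s) (ht : 0 < t) :
    IntervalIntegrable (fun x => x * f2 x ^ 2) volume s t := by
  rw [intervalIntegrable_iff]
  exact h.iC.mono_set (uIoc_subset_uIcc.trans (uIcc_pos hs ht))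

theorem inv_int {s t : ℝ} (hs : 0 < s) (ht : 0 < t) :
    IntervalIntegrable (fun x : ℝ => x⁻¹) volume s t := by
  apply ContinuousOn.intervalIntegrable
  intro x hx
  exact (continuousAt_inv₀ (uIcc_pos hs ht hx).ne').continuousWithinAt

theorem Adm.int2 (h : Adm f f1 f2) {s t : ℝ} (hs : 0 < s) (ht : 0 < t) :
    IntervalIntegrable f2 volume s t := by
  have hI : IntervalIntegrable (fun x => (x * f2 x ^ 2 + x⁻¹) / 2) volume s t :=
    ((h.dom hs ht).add (inv_int hs ht)).div_const 2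
  refine hI.mono_fun' (h.m2.mono_measure (Measure.restrict_mono
    (uIoc_subset_uIcc.trans (uIcc_pos hs ht)) le_rfl)) ?_
  filter_upwards [ae_restrict_mem measurableSet_uIoc] with x hx
  exact amgm (uIcc_pos hs ht (uIoc_subset_uIcc hx))

theorem Adm.diff1 (h : Adm f f1 f2) {s t : ℝ} (hs : 0 < s) (hst : s ≤ t) :
    |f1 t - f1 s| ≤ ((∫ x in Ioi 0, x * f2 x ^ 2) + (Real.log t - Real.log s)) / 2 := by
  have ht : 0 < t := hs.trans_le hst
  have e : ∫ x in s..t, f2 x = f1 t - f1 s :=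
    intervalIntegral.integral_eq_sub_of_hasDerivAt (fun x hx => h.h2 x (uIcc_pos hs ht hx))
      (h.int2 hs ht)
  rw [← e]
  have h1 := intervalIntegral.norm_integral_le_of_norm_le hst
    (f := f2) (g := fun x => (x * f2 x ^ 2 + x⁻¹) / 2) (μ := volume)
    (ae_of_all _ fun x hx => amgm (hs.trans hx.1))
    (((h.dom hs ht).add (inv_int hs ht)).div_const 2)
  rw [Real.norm_eq_abs] at h1
  refine h1.trans ?_
  rw [intervalIntegral.integral_div, intervalIntegral.integral_add (h.dom hs ht) (inv_int hs ht),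
    integral_inv_of_pos hs ht, Real.log_div ht.ne' hs.ne']
  have h2 : ∫ x in s..t, x * f2 x ^ 2 ≤ ∫ x in Ioi 0, x * f2 x ^ 2 := by
    rw [intervalIntegral.integral_of_le hst]
    apply setIntegral_mono_set h.iC
    · filter_upwards [ae_restrict_mem measurableSet_Ioi] with x hx
      have : (0:ℝ) < x := hx
      positivity
    · exact (LE.le.eventuallyLE fun x hx => hs.trans hx.1)
  linarith

/-- growth of the derivative -/
theorem Adm.growth (h : Adm f f1 f2) : ∃ c, 0 ≤ c ∧ ∀ x, 0 < x → |f1 x| ≤ c + |Real.log x| := by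
  have hC : 0 ≤ ∫ x in Ioi 0, x * f2 x ^ 2 :=
    setIntegral_nonneg measurableSet_Ioi fun x hx => by
      have : (0:ℝ) < x := hx
      positivity
  refine ⟨|f1 1| + (∫ x in Ioi 0, x * f2 x ^ 2) / 2, by positivity, fun x hx => ?_⟩
  rcases le_total x 1 with hx1 | hx1
  · have h1 := h.diff1 hx hx1
    rw [Real.log_one, zero_sub] at h1
    have h2 := Real.log_nonpos hx.le hx1
    rw [abs_of_nonpos h2]
    have h3 : |f1 x| ≤ |f1 1| + |f1 1 - f1 x| := by
      have := abs_sub_abs_le_abs_sub (f1 x) (f1 1)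
      rw [abs_sub_comm] at this
      linarith
    linarith
  · have h1 := h.diff1 one_pos hx1
    rw [Real.log_one, sub_zero] at h1
    have h2 := Real.log_nonneg hx1
    rw [abs_of_nonneg h2]
    have h3 : |f1 x| ≤ |f1 1| + |f1 x - f1 1| := by
      have := abs_sub_abs_le_abs_sub (f1 x) (f1 1)
      linarith
    linarith

theorem log_int (s t : ℝ) (c : ℝ) : IntervalIntegrable (fun x => c + |Real.log x|) volume s t :=
  (intervalIntegrable_const).add intervalIntegral.intervalIntegrable_log'.abs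

theorem Adm.int1 (h : Adm f f1 f2) {t : ℝ} (ht : 0 ≤ t) : IntervalIntegrable f1 volume 0 t := by
  obtain ⟨c, _, hc⟩ := h.growth
  refine (log_int 0 t c).mono_fun' ?_ ?_
  · refine (h.cont1.aestronglyMeasurable measurableSet_Ioi).mono_measure
      (Measure.restrict_mono ?_ le_rfl)
    rw [uIoc_of_le ht]
    exact fun x hx => hx.1
  · filter_upwards [ae_restrict_mem measurableSet_uIoc] with x hx
    rw [uIoc_of_le ht] at hx
    exact hc x hx.1

/-- the limit of `f` at zero -/
noncomputable def a0 (f f1 : ℝ → ℝ) : ℝ := f 1 - ∫ x in (0:ℝ)..1, f1 x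

theorem Adm.f_eq (h : Adm f f1 f2) {x : ℝ} (hx : 0 < x) : f x = a0 f f1 + ∫ t in (0:ℝ)..x, f1 t := by
  have e : ∫ t in x..1, f1 t = f 1 - f x :=
    intervalIntegral.integral_eq_sub_of_hasDerivAt (fun y hy => h.h1 y (uIcc_pos hx one_pos hy))
      (h.cont1.mono (uIcc_pos hx one_pos)).intervalIntegrable
  have e2 := intervalIntegral.integral_add_adjacent_intervals (h.int1 hx.le)
    ((h.cont1.mono (uIcc_pos hx one_pos)).intervalIntegrable)
  unfold a0
  rw [← e2, e]
  ring

theorem Adm.lim0 (h : Adm f f1 f2) : Tendsto f (𝓝[>] 0) (𝓝 (a0 f f1)) := by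
  have h1 : ContinuousOn (fun x => ∫ t in (0:ℝ)..x, f1 t) (uIcc 0 1) :=
    intervalIntegral.continuousOn_primitive_interval' (h.int1 zero_le_one) left_mem_uIcc
  have h2 : Tendsto (fun x => ∫ t in (0:ℝ)..x, f1 t) (𝓝[>] 0) (𝓝 0) := by
    have h3 := (h1 0 left_mem_uIcc).tendsto
    rw [intervalIntegral.integral_same] at h3
    apply h3.mono_left
    rw [uIcc_of_le zero_le_one]
    rw [← nhdsWithin_Ioo_eq_nhdsGT (zero_lt_one' ℝ)]
    exact nhdsWithin_mono _ Ioo_subset_Icc_self
  have h3 := (tendsto_const_nhds (x := a0 f f1)).add h2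
  rw [add_zero] at h3
  refine h3.congr' ?_
  filter_upwards [self_mem_nhdsWithin] with x hx
  exact (h.f_eq hx).symm

theorem log_mul0 : Tendsto (fun x : ℝ => x * |Real.log x|) (𝓝[>] 0) (𝓝 0) := by
  have h1 : Continuous fun x : ℝ => x * Real.log x := Real.continuous_mul_log
  have h2 : Tendsto (fun x : ℝ => x * Real.log x) (𝓝[>] 0) (𝓝 0) := by
    have := h1.tendsto 0
    simp only [zero_mul] at this
    exact this.mono_left nhdsWithin_le_nhds
  have h3 := h2.abs
  rw [abs_zero] at h3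
  refine h3.congr' ?_
  filter_upwards [self_mem_nhdsWithin] with x hx
  rw [abs_mul, abs_of_pos hx]

theorem Adm.lim1 (h : Adm f f1 f2) : Tendsto (fun x => x * f1 x) (𝓝[>] 0) (𝓝 0) := by
  obtain ⟨c, _, hc⟩ := h.growth
  rw [tendsto_zero_iff_abs_tendsto_zero]
  have h1 : Tendsto (fun x : ℝ => x * c + x * |Real.log x|) (𝓝[>] 0) (𝓝 (0 * c + 0)) := by
    apply Tendsto.add _ log_mul0
    exact (tendsto_id.mono_left nhdsWithin_le_nhds).mul_const c
  rw [zero_mul, zero_add] at h1
  refine squeeze_zero' (Eventually.of_forall fun x => abs_nonneg _) ?_ h1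
  filter_upwards [self_mem_nhdsWithin] with x hx
  have hx' : (0:ℝ) < x := hx
  simp only [Function.comp]
  rw [abs_mul, abs_of_pos hx']
  have := mul_le_mul_of_nonneg_left (hc x hx') hx'.le
  linarith

/-- a bound on the unit interval -/
theorem Adm.bdd (h : Adm f f1 f2) : ∃ M, 0 ≤ M ∧ ∀ x, 0 < x → x ≤ 1 → |f x| ≤ M := by
  refine ⟨|a0 f f1| + ∫ t in (0:ℝ)..1, |f1 t|, ?_, ?_⟩
  · have : 0 ≤ ∫ t in (0:ℝ)..1, |f1 t| :=
      intervalIntegral.integral_nonneg zero_le_one fun _ _ => abs_nonneg _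
    positivity
  · intro x hx hx1
    rw [h.f_eq hx]
    refine (abs_add_le _ _).trans (add_le_add le_rfl ?_)
    have h1 := intervalIntegral.abs_integral_le_integral_abs hx.le (f := f1) (μ := volume)
    refine h1.trans ?_
    apply intervalIntegral.integral_mono_interval le_rfl hx.le hx1
    · exact Eventually.of_forall fun _ => abs_nonneg _
    · exact (h.int1 zero_le_one).abs

/-- growth at infinity -/
theorem Adm.large (h : Adm f f1 f2) : ∃ c, 0 ≤ c ∧ ∀ x, 1 ≤ x → |f1 x| ≤ c + x ∧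
    |f x| ≤ c + (c + x) * x := by
  obtain ⟨c, hc0, hc⟩ := h.growth
  refine ⟨c + |f 1|, by positivity, fun x hx => ?_⟩
  have hx0 : 0 < x := by linarith
  have hb : ∀ y, 1 ≤ y → y ≤ x → |f1 y| ≤ c + x := by
    intro y hy hyx
    have h1 := hc y (by linarith)
    rw [abs_of_nonneg (Real.log_nonneg hy)] at h1
    have := Real.log_le_sub_one_of_pos (by linarith : 0 < y)
    linarith
  constructor
  · have := hb x hx le_rfl
    have := abs_nonneg (f 1)
    linarith
  · have e : ∫ t in (1:ℝ)..x, f1 t = f x - f 1 :=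
      intervalIntegral.integral_eq_sub_of_hasDerivAt (fun y hy => h.h1 y (uIcc_pos one_pos hx0 hy))
        (h.cont1.mono (uIcc_pos one_pos hx0)).intervalIntegrable
    have h1 : ‖∫ t in (1:ℝ)..x, f1 t‖ ≤ (c + x) * |x - 1| := by
      apply intervalIntegral.norm_integral_le_of_norm_le_const
      intro y hy
      rw [uIoc_of_le hx] at hy
      exact hb y hy.1.le hy.2
    rw [e, Real.norm_eq_abs, abs_of_nonneg (by linarith : (0:ℝ) ≤ x - 1)] at h1
    have h2 : |f x| ≤ |f 1| + |f x - f 1| := by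
      have := abs_sub_abs_le_abs_sub (f x) (f 1)
      linarith
    have h3 := abs_nonneg (f 1)
    nlinarith

end Q41.EG
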