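import Mathlib

/-! The extremal function, as an integral of exponentials. -/

set_option autoImplicit false

open MeasureTheory Set Filter Topology Complex

namespace Q41.EG

/-- the modular function -/
noncomputable def Dl (m φ : ℝ) : ℝ := √(1 - m * Real.sin φ ^ 2)

/-- the radius -/
noncomputable def Rr (m : ℝ) : ℝ := 1 / √(2 * m - 1)

/-- the complex frequency -/
noncomputable def zz (m φ : ℝ) : ℂ := -(Rr m : ℂ) * ((Dl m φ : ℂ) + I * (√m : ℝ) * (Real.sin φ : ℝ))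

/-- the integrals -/
noncomputable def GG (m : ℝ) (j : ℕ) (x : ℝ) : ℂ :=
  ∫ φ in (-(Real.pi / 2))..(Real.pi / 2), zz m φ ^ j * cexp (zz m φ * x) / (Dl m φ : ℂ)

variable {m : ℝ}

theorem arg_ge (h1 : 1 / 2 < m) (φ : ℝ) : 1 - m ≤ 1 - m * Real.sin φ ^ 2 := by
  have := Real.sin_sq_le_one φ
  nlinarith

theorem arg_pos (h1 : 1 / 2 < m) (h2 : m < 1) (φ : ℝ) : 0 < 1 - m * Real.sin φ ^ 2 := by
  have := arg_ge h1 φ
  linarith

theorem Dl_sq (h1 : 1 / 2 < m) (h2 : m < 1) (φ : ℝ) : Dl m φ ^ 2 = 1 - m * Real.sin φ ^ 2 :=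
  Real.sq_sqrt (arg_pos h1 h2 φ).le

theorem Dl_pos (h1 : 1 / 2 < m) (h2 : m < 1) (φ : ℝ) : 0 < Dl m φ :=
  Real.sqrt_pos.mpr (arg_pos h1 h2 φ)

theorem Dl_ge (h1 : 1 / 2 < m) (φ : ℝ) : √(1 - m) ≤ Dl m φ :=
  Real.sqrt_le_sqrt (arg_ge h1 φ)

theorem Rr_pos (h1 : 1 / 2 < m) : 0 < Rr m := by
  have : 0 < 2 * m - 1 := by linarith
  unfold Rr
  positivity

theorem Rr_sq (h1 : 1 / 2 < m) : Rr m ^ 2 * (2 * m - 1) = 1 := by
  have h : 0 < 2 * m - 1 := by linarith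
  unfold Rr
  rw [div_pow, Real.sq_sqrt h.le]
  field_simp

theorem Dl_cont : Continuous (Dl m) := by
  unfold Dl
  fun_prop

theorem zz_cont : Continuous (zz m) := by
  unfold zz
  have := Dl_cont (m := m)
  fun_prop

theorem zz_re (φ : ℝ) : (zz m φ).re = -(Rr m * Dl m φ) := by
  unfold zz
  simp [-Complex.ofReal_sin]

theorem zz_im (φ : ℝ) : (zz m φ).im = -(Rr m * (√m * Real.sin φ)) := by
  unfold zz
  simp [-Complex.ofReal_sin]

theorem zz_norm (h1 : 1 / 2 < m) (h2 : m < 1) (φ : ℝ) : ‖zz m φ‖ = Rr m := by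
  have h : ‖zz m φ‖ ^ 2 = Rr m ^ 2 := by
    rw [Complex.sq_norm, Complex.normSq_apply, zz_re, zz_im]
    have e1 := Dl_sq h1 h2 φ
    have e2 : √m ^ 2 = m := Real.sq_sqrt (by linarith)
    linear_combination Rr m ^ 2 * e1 + Rr m ^ 2 * Real.sin φ ^ 2 * e2
  exact (pow_left_inj₀ (norm_nonneg _) (Rr_pos h1).le two_ne_zero).mp h

/-- the rate -/
noncomputable def rr (m : ℝ) : ℝ := Rr m * √(1 - m)

theorem rr_pos (h1 : 1 / 2 < m) (h2 : m < 1) : 0 < rr m := by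
  have : 0 < 1 - m := by linarith
  have := Rr_pos h1
  unfold rr
  positivity

theorem int_norm (h1 : 1 / 2 < m) (h2 : m < 1) (j : ℕ) {x : ℝ} (hx : 0 ≤ x) (φ : ℝ) :
    ‖zz m φ ^ j * cexp (zz m φ * x) / (Dl m φ : ℂ)‖ ≤ Rr m ^ j / √(1 - m) * Real.exp (-rr m * x) := by
  have h3 : 0 < √(1 - m) := Real.sqrt_pos.mpr (by linarith)
  rw [norm_div, norm_mul, norm_pow, zz_norm h1 h2, Complex.norm_exp, Complex.norm_real,
    Real.norm_eq_abs, abs_of_pos (Dl_pos h1 h2 φ)]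
  have h4 : (zz m φ * (x : ℂ)).re = (zz m φ).re * x := by simp
  rw [h4, zz_re]
  have h5 : Real.exp (-(Rr m * Dl m φ) * x) ≤ Real.exp (-rr m * x) := by
    apply Real.exp_le_exp.mpr
    have : Rr m * √(1 - m) ≤ Rr m * Dl m φ := mul_le_mul_of_nonneg_left (Dl_ge h1 φ) (Rr_pos h1).le
    unfold rr
    nlinarith
  have h6 : 0 < Rr m := Rr_pos h1
  calc Rr m ^ j * Real.exp (-(Rr m * Dl m φ) * x) / Dl m φ
      ≤ Rr m ^ j * Real.exp (-rr m * x) / √(1 - m) := by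
        apply div_le_div₀ (by positivity) _ h3 (Dl_ge h1 φ)
        exact mul_le_mul_of_nonneg_left h5 (by positivity)
    _ = _ := by ring

theorem GG_norm (h1 : 1 / 2 < m) (h2 : m < 1) (j : ℕ) {x : ℝ} (hx : 0 ≤ x) :
    ‖GG m j x‖ ≤ Rr m ^ j / √(1 - m) * Real.pi * Real.exp (-rr m * x) := by
  have := intervalIntegral.norm_integral_le_of_norm_le_const (a := -(Real.pi / 2))
    (b := Real.pi / 2) (fun φ _ => int_norm h1 h2 j hx φ)
  refine this.trans (le_of_eq ?_)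
  have hpi := Real.pi_pos
  rw [abs_of_pos (by linarith)]
  ring

theorem F_cont (h1 : 1 / 2 < m) (h2 : m < 1) (j : ℕ) (x : ℝ) :
    Continuous fun φ => zz m φ ^ j * cexp (zz m φ * x) / (Dl m φ : ℂ) := by
  have c1 := zz_cont (m := m)
  have c2 := Dl_cont (m := m)
  apply Continuous.div (by fun_prop) (by fun_prop)
  intro φ
  exact_mod_cast (Dl_pos h1 h2 φ).ne'

theorem GG_der (h1 : 1 / 2 < m) (h2 : m < 1) (j : ℕ) (x : ℝ) :
    HasDerivAt (GG m j) (GG m (j + 1) x) x := by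
  have h6 : 0 < Rr m := Rr_pos h1
  have h3 : 0 < √(1 - m) := Real.sqrt_pos.mpr (by linarith)
  refine (intervalIntegral.hasDerivAt_integral_of_dominated_loc_of_deriv_le
    (F := fun (x : ℝ) φ => zz m φ ^ j * cexp (zz m φ * x) / (Dl m φ : ℂ))
    (F' := fun (x : ℝ) φ => zz m φ ^ (j + 1) * cexp (zz m φ * x) / (Dl m φ : ℂ))
    (bound := fun _ => Rr m ^ (j + 1) * Real.exp (Rr m * (|x| + 1)) / √(1 - m))
    (s := Metric.ball x 1) (Metric.ball_mem_nhds x one_pos) ?_ ?_ ?_ ?_ ?_ ?_).2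
  · exact Eventually.of_forall fun y => (F_cont h1 h2 j y).aestronglyMeasurable
  · exact (F_cont h1 h2 j x).intervalIntegrable _ _
  · exact (F_cont h1 h2 (j + 1) x).aestronglyMeasurable
  · refine ae_of_all _ fun φ _ y hy => ?_
    rw [norm_div, norm_mul, norm_pow, zz_norm h1 h2, Complex.norm_real,
      Real.norm_eq_abs, abs_of_pos (Dl_pos h1 h2 φ)]
    apply div_le_div₀ (by positivity) _ h3 (Dl_ge h1 φ)
    apply mul_le_mul_of_nonneg_left _ (by positivity)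
    refine (Complex.norm_exp_le_exp_norm _).trans ?_
    apply Real.exp_le_exp.mpr
    rw [norm_mul, zz_norm h1 h2, Complex.norm_real, Real.norm_eq_abs]
    apply mul_le_mul_of_nonneg_left _ h6.le
    rw [Metric.mem_ball, Real.dist_eq] at hy
    have := abs_sub_abs_le_abs_sub y x
    linarith
  · exact intervalIntegrable_const
  · refine ae_of_all _ fun φ _ y _ => ?_
    have e1 : HasDerivAt (fun y : ℝ => (y : ℂ)) 1 y := Complex.ofRealCLM.hasDerivAt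
    have e2 := (((e1.const_mul (zz m φ)).cexp).const_mul (zz m φ ^ j)).div_const (Dl m φ : ℂ)
    refine e2.congr_deriv ?_
    rw [pow_succ]
    ring

/-- the derivative of the frequency -/
theorem zz_der (h1 : 1 / 2 < m) (h2 : m < 1) (φ : ℝ) :
    HasDerivAt (zz m) (I * (√m : ℝ) * (Real.cos φ : ℝ) * zz m φ / (Dl m φ : ℂ)) φ := by
  have hD := Dl_pos h1 h2 φ
  have hDc : (Dl m φ : ℂ) ≠ 0 := by exact_mod_cast hD.ne'
  have e1 : HasDerivAt (Dl m) (-(m * Real.sin φ * Real.cos φ) / Dl m φ) φ := by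
    have h3 : HasDerivAt (fun φ => 1 - m * Real.sin φ ^ 2) (-(m * (2 * Real.sin φ * Real.cos φ))) φ := by
      have := (((Real.hasDerivAt_sin φ).pow 2).const_mul m).const_sub 1
      refine this.congr_deriv ?_
      push_cast
      ring
    have := h3.sqrt (arg_pos h1 h2 φ).ne'
    refine this.congr_deriv ?_
    have e : √(1 - m * Real.sin φ ^ 2) = Dl m φ := rfl
    rw [e]
    field_simp
  have e2 := e1.ofReal_comp
  have e3 := (Real.hasDerivAt_sin φ).ofReal_comp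
  have e4 := (e2.add (e3.const_mul (I * ((√m : ℝ) : ℂ)))).const_mul (-(Rr m : ℂ))
  refine e4.congr_deriv ?_
  have hm : ((√m : ℝ) : ℂ) ^ 2 = (m : ℂ) := by
    exact_mod_cast Real.sq_sqrt (show (0:ℝ) ≤ m by linarith)
  have hI : I ^ 2 = -1 := Complex.I_sq
  have hz : zz m φ = -(Rr m : ℂ) * ((Dl m φ : ℂ) + I * (√m : ℝ) * (Real.sin φ : ℝ)) := rfl
  rw [hz]
  simp only [Complex.ofReal_div, Complex.ofReal_neg, Complex.ofReal_mul]
  generalize ((Real.sin φ : ℝ) : ℂ) = s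
  generalize ((Real.cos φ : ℝ) : ℂ) = c
  generalize ((√m : ℝ) : ℂ) = k at hm ⊢
  generalize (Dl m φ : ℂ) = d at hDc ⊢
  generalize (Rr m : ℂ) = R
  field_simp
  linear_combination (-(R * c * s)) * hm + R * c * s * k ^ 2 * hI

theorem alg1 {R k d s c m z : ℂ} (hd : d ^ 2 = 1 - m * s ^ 2) (hk : k ^ 2 = m)
    (hR : R ^ 2 * (2 * m - 1) = 1) (hsc : s ^ 2 + c ^ 2 = 1) (hz : z = -R * (d + I * k * s)) :
    2 * z ^ 2 + 2 = 4 * R ^ 2 * m * c ^ 2 + 4 * I * R ^ 2 * k * s * d := by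
  have hI : I ^ 2 = -1 := Complex.I_sq
  subst hz
  have hc : c ^ 2 = 1 - s ^ 2 := by linear_combination hsc
  rw [hc]
  linear_combination 2 * R ^ 2 * hd + 2 * R ^ 2 * k ^ 2 * s ^ 2 * hI - 2 * R ^ 2 * s ^ 2 * hk - 2 * hR

theorem alg2 {R k d s c m z : ℂ} (hd : d ^ 2 = 1 - m * s ^ 2) (hk : k ^ 2 = m)
    (hR : R ^ 2 * (2 * m - 1) = 1) (hsc : s ^ 2 + c ^ 2 = 1) (hz : z = -R * (d + I * k * s)) :
    z ^ 4 + 2 * z ^ 2 + R ^ 4 = 4 * R ^ 2 * m * c ^ 2 * z ^ 2 := by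
  have hI : I ^ 2 = -1 := Complex.I_sq
  set q : ℂ := d - I * k * s with hq
  set p : ℂ := d + I * k * s with hp
  have hpq : p * q = 1 := by
    rw [hp, hq]
    linear_combination hd - k ^ 2 * s ^ 2 * hI + s ^ 2 * hk
  have hz2 : z ^ 2 = R ^ 2 * p ^ 2 := by rw [hz]; ring
  have h4 : R ^ 4 = R ^ 4 * p ^ 2 * q ^ 2 := by
    have : p ^ 2 * q ^ 2 = 1 := by rw [← mul_pow, hpq, one_pow]
    linear_combination (-R ^ 4) * this
  have hsum : p ^ 2 + q ^ 2 = 2 * (1 - 2 * m * s ^ 2) := by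
    rw [hp, hq]
    linear_combination 2 * hd + 2 * k ^ 2 * s ^ 2 * hI - 2 * s ^ 2 * hk
  have hc : c ^ 2 = 1 - s ^ 2 := by linear_combination hsc
  have e1 : z ^ 4 + 2 * z ^ 2 + R ^ 4 = R ^ 2 * p ^ 2 * (R ^ 2 * (p ^ 2 + q ^ 2) + 2) := by
    have : z ^ 4 = R ^ 4 * p ^ 4 := by rw [hz]; ring
    linear_combination this + 2 * hz2 + h4
  rw [e1, hsum, hz2, hc]
  linear_combination (-2 * R ^ 2 * p ^ 2) * hR

theorem alg3 {R k d s c m z E x : ℂ} (hd : d ≠ 0) (hm : k ^ 2 = m)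
    (a1 : 2 * z ^ 2 + 2 = 4 * R ^ 2 * m * c ^ 2 + 4 * I * R ^ 2 * k * s * d)
    (a2 : z ^ 4 + 2 * z ^ 2 + R ^ 4 = 4 * R ^ 2 * m * c ^ 2 * z ^ 2) :
    -4 * I * R ^ 2 * k * -s * (z * E) +
      -4 * I * R ^ 2 * k * c * (I * k * c * z / d * E + z * (E * (I * k * c * z / d * x))) =
    x * (z ^ 4 * E / d + 2 * (z ^ 2 * E / d) + R ^ 4 * (z ^ 0 * E / d)) + 2 * (z ^ 3 * E / d) +
      2 * (z ^ 1 * E / d) := by
  have hI : I ^ 2 = -1 := Complex.I_sq
  field_simp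
  linear_combination (-z * E) * a1 - x * E * a2 + (4 * R ^ 2 * c ^ 2 * z * E +
    4 * R ^ 2 * c ^ 2 * z ^ 2 * x * E) * hm - (4 * R ^ 2 * k ^ 2 * c ^ 2 * z * E +
    4 * R ^ 2 * k ^ 2 * c ^ 2 * z ^ 2 * x * E) * hI

/-- the differential equation -/
theorem GG_ode (h1 : 1 / 2 < m) (h2 : m < 1) (x : ℝ) :
    (x : ℂ) * (GG m 4 x + 2 * GG m 2 x + (Rr m : ℂ) ^ 4 * GG m 0 x) + 2 * GG m 3 x + 2 * GG m 1 x
      = 0 := by
  set H : ℝ → ℂ := fun φ => -4 * I * (Rr m : ℂ) ^ 2 * (√m : ℝ) * (Real.cos φ : ℝ) *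
    (zz m φ * cexp (zz m φ * x)) with hH
  set P : ℕ → ℝ → ℂ := fun j φ => zz m φ ^ j * cexp (zz m φ * x) / (Dl m φ : ℂ) with hP
  have hder : ∀ φ, HasDerivAt H ((x : ℂ) * (P 4 φ + 2 * P 2 φ + (Rr m : ℂ) ^ 4 * P 0 φ)
      + 2 * P 3 φ + 2 * P 1 φ) φ := by
    intro φ
    have hD := Dl_pos h1 h2 φ
    have hDc : (Dl m φ : ℂ) ≠ 0 := by exact_mod_cast hD.ne'
    have dz := zz_der h1 h2 φ
    have e1 := (Real.hasDerivAt_cos φ).ofReal_comp
    have e2 := (e1.const_mul (-4 * I * (Rr m : ℂ) ^ 2 * (√m : ℝ))).mul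
      (dz.mul ((dz.mul_const (x : ℂ)).cexp))
    refine e2.congr_deriv ?_
    have hm : ((√m : ℝ) : ℂ) ^ 2 = (m : ℂ) := by
      exact_mod_cast Real.sq_sqrt (show (0:ℝ) ≤ m by linarith)
    have hd : (Dl m φ : ℂ) ^ 2 = 1 - (m : ℂ) * ((Real.sin φ : ℝ) : ℂ) ^ 2 := by
      exact_mod_cast Dl_sq h1 h2 φ
    have hR : (Rr m : ℂ) ^ 2 * (2 * (m : ℂ) - 1) = 1 := by exact_mod_cast Rr_sq h1
    have hsc : ((Real.sin φ : ℝ) : ℂ) ^ 2 + ((Real.cos φ : ℝ) : ℂ) ^ 2 = 1 := by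
      exact_mod_cast Real.sin_sq_add_cos_sq φ
    have hz : zz m φ = -(Rr m : ℂ) * ((Dl m φ : ℂ) + I * (√m : ℝ) * (Real.sin φ : ℝ)) := rfl
    have a1 := alg1 hd hm hR hsc hz
    have a2 := alg2 hd hm hR hsc hz
    have hI : I ^ 2 = -1 := Complex.I_sq
    simp only [hP, Pi.mul_apply, Complex.ofReal_neg]
    exact alg3 hDc hm a1 a2
  have hc : ∀ j, Continuous (P j) := fun j => F_cont h1 h2 j x
  have hi : ∀ j, IntervalIntegrable (P j) volume (-(Real.pi / 2)) (Real.pi / 2) := fun j =>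
    (hc j).intervalIntegrable _ _
  have hFTC := intervalIntegral.integral_eq_sub_of_hasDerivAt (a := -(Real.pi / 2))
    (b := Real.pi / 2) (fun φ _ => hder φ) (by
      apply Continuous.intervalIntegrable
      have := hc 0
      have := hc 1
      have := hc 2
      have := hc 3
      have := hc 4
      fun_prop)
  have hb1 : H (Real.pi / 2) = 0 := by rw [hH]; simp [-Complex.ofReal_cos]
  have hb2 : H (-(Real.pi / 2)) = 0 := by rw [hH]; simp [-Complex.ofReal_cos]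
  rw [hb1, hb2, sub_zero] at hFTC
  have i1 := (hi 2).const_mul 2
  have i2 := (hi 0).const_mul ((Rr m : ℂ) ^ 4)
  have i3 := (hi 4).add i1
  have i4 := i3.add i2
  have i5 := i4.const_mul (x : ℂ)
  have i6 := (hi 3).const_mul 2
  have i7 := (hi 1).const_mul 2
  have i8 := i5.add i6
  have s1 := intervalIntegral.integral_add i8 i7
  have s2 := intervalIntegral.integral_add i5 i6
  have s3 := intervalIntegral.integral_add i3 i2
  have s4 := intervalIntegral.integral_add (hi 4) i1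
  simp only [intervalIntegral.integral_const_mul] at s1 s2 s3 s4
  have g : ∀ j, GG m j x = ∫ φ in (-(Real.pi / 2))..(Real.pi / 2), P j φ := fun j => rfl
  rw [g 4, g 3, g 2, g 1, g 0]
  rw [← s4, ← s3, ← s2, ← s1]
  exact hFTC

end Q41.EG
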