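import Pool.Agent.Q41.EG.Parts

/-! The identity `∫ x f'² = f(0)²/2 - ∫ x f f''` on the half line. -/

set_option autoImplicit false

open MeasureTheory Set Filter Topology

namespace Q41.EG

variable {f f1 f2 : ℝ → ℝ}

theorem lim_w {F : ℝ → ℝ} (hF : IntegrableOn (fun x => x * F x) (Ioi 0))
    (hm : AEStronglyMeasurable F (volume.restrict (Ioi 0))) :
    Tendsto (fun R : ℝ => ∫ x in (0:ℝ)..R, w R x * F x) atTop (𝓝 (∫ x in Ioi 0, x * F x)) := by
  have h1 : Tendsto (fun R : ℝ => ∫ x in Ioi (0:ℝ), (Ioc 0 R).indicator (fun x => w R x * F x) x)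
      atTop (𝓝 (∫ x in Ioi 0, x * F x)) := by
    apply tendsto_integral_filter_of_dominated_convergence (fun x => ‖x * F x‖)
    · refine Eventually.of_forall fun R => ?_
      apply AEStronglyMeasurable.indicator _ measurableSet_Ioc
      have hwc : Continuous (w R) := by unfold w; fun_prop
      exact hwc.aestronglyMeasurable.mul hm
    · filter_upwards [eventually_gt_atTop 0] with R hR
      refine Eventually.of_forall fun x => ?_
      by_cases hx : x ∈ Ioc 0 R
      · rw [indicator_of_mem hx]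
        have hb := w_bd hx.1.le hx.2 hR
        rw [norm_mul, norm_mul x, Real.norm_eq_abs (w R x), abs_of_nonneg hb.1,
          Real.norm_eq_abs x, abs_of_pos hx.1]
        exact mul_le_mul_of_nonneg_right hb.2 (norm_nonneg _)
      · rw [indicator_of_notMem hx, norm_zero]
        exact norm_nonneg _
    · exact hF.norm
    · filter_upwards [ae_restrict_mem measurableSet_Ioi] with x hx
      have hx' : (0:ℝ) < x := hx
      have h2 : Tendsto (fun R : ℝ => w R x * F x) atTop (𝓝 (x * (1 - 0) ^ 2 * F x)) := by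
        apply Tendsto.mul_const
        apply Tendsto.const_mul
        apply Tendsto.pow
        exact tendsto_const_nhds.sub (tendsto_const_nhds.div_atTop tendsto_id)
      rw [sub_zero, one_pow, mul_one] at h2
      refine h2.congr' ?_
      filter_upwards [eventually_ge_atTop x] with R hR
      rw [indicator_of_mem]
      exact ⟨hx', hR⟩
  refine h1.congr' ?_
  filter_upwards [eventually_gt_atTop 0] with R hR
  rw [setIntegral_indicator measurableSet_Ioc, intervalIntegral.integral_of_le hR.le]
  congr 2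
  ext x
  simp only [mem_inter_iff, mem_Ioi, mem_Ioc]
  tauto

/-- the error term -/
theorem Adm.err (h : Adm f f1 f2) : ∃ M, 0 ≤ M ∧ ∀ R, 1 ≤ R →
    |∫ x in (0:ℝ)..R, (3 * x / R ^ 2 - 2 / R) * f x ^ 2| ≤ 2 / R * M := by
  obtain ⟨M, hM0, hM⟩ := h.F_bdd
  refine ⟨M, hM0, fun R hR => ?_⟩
  have hR0 : 0 < R := by linarith
  have h1 : ‖∫ x in (0:ℝ)..R, (3 * x / R ^ 2 - 2 / R) * f x ^ 2‖ ≤
      ∫ x in (0:ℝ)..R, 2 / R * f x ^ 2 := by
    apply intervalIntegral.norm_integral_le_of_norm_le hR0.le
    · refine ae_of_all _ fun x hx => ?_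
      rw [norm_mul, Real.norm_eq_abs (f x ^ 2), abs_of_nonneg (sq_nonneg _)]
      apply mul_le_mul_of_nonneg_right _ (sq_nonneg _)
      rw [Real.norm_eq_abs, abs_le]
      have e : 3 * x / R ^ 2 = 3 * (x / R) * (1 / R) := by field_simp
      have e2 : 2 / R = 2 * (1 / R) := by ring
      have h2 : 0 ≤ x / R := div_nonneg hx.1.le hR0.le
      have h3 : x / R ≤ 1 := by rw [div_le_one hR0]; exact hx.2
      have h4 : 0 < 1 / R := by positivity
      rw [e, e2]
      constructor
      · nlinarith [mul_nonneg h2 h4.le]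
      · nlinarith [mul_nonneg h2 h4.le]
    · exact (h.iF hR0.le).const_mul _
  rw [intervalIntegral.integral_const_mul] at h1
  exact h1.trans (mul_le_mul_of_nonneg_left (hM R hR) (by positivity))

/-- `x f'²` is integrable -/
theorem Adm.iB (h : Adm f f1 f2) : IntegrableOn (fun x => x * f1 x ^ 2) (Ioi 0) := by
  obtain ⟨M, hM0, hM⟩ := h.err
  set D : ℝ := ∫ x in Ioi 0, ‖x * (f x * f2 x)‖ with hD
  refine integrableOn_Ioi_of_intervalIntegral_norm_bounded
    (4 * (a0 f f1 ^ 2 / 2 + D + 2 * M)) 0 (b := fun R : ℝ => R / 2) (l := atTop) ?_ ?_ ?_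
  · intro R
    rcases le_total 0 (R / 2) with hR | hR
    · exact (intervalIntegrable_iff_integrableOn_Ioc_of_le hR).mp (h.iB1 hR)
    · rw [Ioc_eq_empty (not_lt.mpr hR)]
      exact integrableOn_empty
  · exact tendsto_id.atTop_div_const two_pos
  · filter_upwards [eventually_ge_atTop 1] with R hR
    have hR0 : 0 < R := by linarith
    have hpar := h.parts hR0
    have he := (abs_le.mp (hM R hR)).2
    have hi1 : IntervalIntegrable (fun x => w R x * f1 x ^ 2) volume 0 R := by
      have hwc : Continuous (w R) := by unfold w; fun_prop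
      refine (h.iB1 hR0.le).mono_fun' ?_ ?_
      · refine mm (hwc.aestronglyMeasurable.mul (h.m1.pow 2)) ?_
        rw [uIoc_of_le hR0.le]; exact fun x hx => hx.1
      · filter_upwards [ae_restrict_mem measurableSet_uIoc] with x hx
        rw [uIoc_of_le hR0.le] at hx
        have hb := w_bd hx.1.le hx.2 hR0
        rw [Real.norm_eq_abs, abs_of_nonneg (mul_nonneg hb.1 (sq_nonneg _))]
        exact mul_le_mul_of_nonneg_right hb.2 (sq_nonneg _)
    have hR2 : 0 ≤ R / 2 := by linarith
    have hR3 : R / 2 ≤ R := by linarith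
    have s1 : ∫ x in (0:ℝ)..(R / 2), ‖x * f1 x ^ 2‖ ≤
        ∫ x in (0:ℝ)..(R / 2), 4 * (w R x * f1 x ^ 2) := by
      apply intervalIntegral.integral_mono_on hR2 (h.iB1 hR2).norm
      · apply IntervalIntegrable.const_mul
        apply hi1.mono_set
        rw [uIcc_of_le hR2, uIcc_of_le hR0.le]
        exact Icc_subset_Icc le_rfl hR3
      · intro x hx
        rw [Real.norm_eq_abs, abs_of_nonneg (mul_nonneg hx.1 (sq_nonneg _))]
        have h3 : x / R ≤ 1 / 2 := by rw [div_le_iff₀ hR0]; linarith [hx.2]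
        have h4 : (1/4 : ℝ) ≤ (1 - x / R) ^ 2 := by nlinarith
        have h5 : x ≤ 4 * w R x := by
          unfold w
          nlinarith [hx.1]
        nlinarith [sq_nonneg (f1 x)]
    have s2 : ∫ x in (0:ℝ)..(R / 2), 4 * (w R x * f1 x ^ 2) ≤
        ∫ x in (0:ℝ)..R, 4 * (w R x * f1 x ^ 2) := by
      rw [intervalIntegral.integral_of_le hR2, intervalIntegral.integral_of_le hR0.le]
      apply setIntegral_mono_set
      · exact (intervalIntegrable_iff_integrableOn_Ioc_of_le hR0.le).mp (hi1.const_mul 4)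
      · filter_upwards [ae_restrict_mem measurableSet_Ioc] with x hx
        have := (w_bd hx.1.le hx.2 hR0).1
        have h6 := sq_nonneg (f1 x)
        show 0 ≤ _
        positivity
      · exact (LE.le.eventuallyLE fun x hx => ⟨hx.1, hx.2.trans hR3⟩)
    have s3 : -(∫ x in (0:ℝ)..R, w R x * (f x * f2 x)) ≤ D := by
      have h7 : ‖∫ x in (0:ℝ)..R, w R x * (f x * f2 x)‖ ≤ ∫ x in (0:ℝ)..R, ‖x * (f x * f2 x)‖ := by
        apply intervalIntegral.norm_integral_le_of_norm_le hR0.le
        · refine ae_of_all _ fun x hx => ?_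
          have hb := w_bd hx.1.le hx.2 hR0
          rw [norm_mul, norm_mul x, Real.norm_eq_abs (w R x), abs_of_nonneg hb.1,
            Real.norm_eq_abs x, abs_of_pos hx.1]
          exact mul_le_mul_of_nonneg_right hb.2 (norm_nonneg _)
        · rw [intervalIntegrable_iff_integrableOn_Ioc_of_le hR0.le]
          exact (h.i02.mono_set fun x hx => hx.1).norm
      have h8 : ∫ x in (0:ℝ)..R, ‖x * (f x * f2 x)‖ ≤ D := by
        rw [intervalIntegral.integral_of_le hR0.le]
        apply setIntegral_mono_set h.i02.norm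
        · exact Eventually.of_forall fun x => norm_nonneg _
        · exact (LE.le.eventuallyLE fun x hx => hx.1)
      rw [Real.norm_eq_abs] at h7
      have := neg_le_abs (∫ x in (0:ℝ)..R, w R x * (f x * f2 x))
      linarith
    have s4 : 2 / R * M ≤ 2 * M := by
      apply mul_le_mul_of_nonneg_right _ hM0
      rw [div_le_iff₀ hR0]
      linarith
    simp only [intervalIntegral.integral_const_mul] at s1 s2
    linarith

theorem Adm.ident (h : Adm f f1 f2) :
    ∫ x in Ioi 0, x * f1 x ^ 2 = a0 f f1 ^ 2 / 2 - ∫ x in Ioi 0, x * (f x * f2 x) := by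
  have l1 := lim_w h.iB (h.m1.pow 2)
  have l2 := lim_w h.i02 (h.m0.mul h.m2)
  have l3 : Tendsto (fun R : ℝ => ∫ x in (0:ℝ)..R, (3 * x / R ^ 2 - 2 / R) * f x ^ 2) atTop
      (𝓝 0) := by
    obtain ⟨M, hM0, hM⟩ := h.err
    rw [tendsto_zero_iff_abs_tendsto_zero]
    have h1 : Tendsto (fun R : ℝ => 2 / R * M) atTop (𝓝 (0 * M)) :=
      (tendsto_const_nhds.div_atTop tendsto_id).mul_const M
    rw [zero_mul] at h1
    refine squeeze_zero' (Eventually.of_forall fun x => abs_nonneg _) ?_ h1
    filter_upwards [eventually_ge_atTop 1] with R hR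
    exact hM R hR
  have l4 := ((tendsto_const_nhds (x := a0 f f1 ^ 2 / 2)).sub l2).add l3
  rw [add_zero] at l4
  refine tendsto_nhds_unique l1 (l4.congr' ?_)
  filter_upwards [eventually_gt_atTop 0] with R hR
  exact (h.parts hR).symm

end Q41.EG
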