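import Pool.Agent.Q41.EG.Fun

/-! Integration by parts with a compactly supported weight. -/

set_option autoImplicit false

open MeasureTheory Set Filter Topology

namespace Q41.EG

variable {f f1 f2 : ℝ → ℝ}

theorem mm {u : ℝ → ℝ} {s : Set ℝ} (hu : AEStronglyMeasurable u (volume.restrict (Ioi 0)))
    (hs : s ⊆ Ioi 0) : AEStronglyMeasurable u (volume.restrict s) :=
  hu.mono_measure (Measure.restrict_mono hs le_rfl)

/-- products of two functions with weighted square integrable values -/
theorem mul_int {u v : ℝ → ℝ} (hu : IntegrableOn (fun x => x * u x ^ 2) (Ioi 0))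
    (hv : IntegrableOn (fun x => x * v x ^ 2) (Ioi 0))
    (hum : AEStronglyMeasurable u (volume.restrict (Ioi 0)))
    (hvm : AEStronglyMeasurable v (volume.restrict (Ioi 0))) :
    IntegrableOn (fun x => x * (u x * v x)) (Ioi 0) := by
  have hI : IntegrableOn (fun x => x * u x ^ 2 + x * v x ^ 2) (Ioi 0) := hu.add hv
  refine Integrable.mono' hI ?_ ?_
  · exact (measurable_id.aestronglyMeasurable).mul (hum.mul hvm)
  · filter_upwards [ae_restrict_mem measurableSet_Ioi] with x hx
    have hx' : (0:ℝ) < x := hx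
    rw [Real.norm_eq_abs, abs_mul, abs_of_pos hx', abs_mul]
    have h1 : |u x| * |v x| ≤ u x ^ 2 + v x ^ 2 := by
      have := two_mul_le_add_sq |u x| |v x|
      rw [sq_abs, sq_abs] at this
      nlinarith [abs_nonneg (u x), abs_nonneg (v x)]
    have := mul_le_mul_of_nonneg_left h1 hx'.le
    linarith

theorem Adm.m0 (h : Adm f f1 f2) : AEStronglyMeasurable f (volume.restrict (Ioi 0)) :=
  h.cont.aestronglyMeasurable measurableSet_Ioi

theorem Adm.m1 (h : Adm f f1 f2) : AEStronglyMeasurable f1 (volume.restrict (Ioi 0)) :=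
  h.cont1.aestronglyMeasurable measurableSet_Ioi

theorem Adm.i02 (h : Adm f f1 f2) : IntegrableOn (fun x => x * (f x * f2 x)) (Ioi 0) :=
  mul_int h.iA h.iC h.m0 h.m2

/-- `x f'²` is integrable near zero -/
theorem Adm.iB1 (h : Adm f f1 f2) {t : ℝ} (ht : 0 ≤ t) :
    IntervalIntegrable (fun x => x * f1 x ^ 2) volume 0 t := by
  have key : IntervalIntegrable (fun x => x * f1 x ^ 2) volume 0 1 := by
    obtain ⟨c, hc0, hc⟩ := h.growth
    refine ((log_int 0 1 c).const_mul (c + 1)).mono_fun' ?_ ?_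
    · refine mm ((measurable_id.aestronglyMeasurable).mul (h.m1.pow 2)) ?_
      rw [uIoc_of_le zero_le_one]
      exact fun x hx => hx.1
    · filter_upwards [ae_restrict_mem measurableSet_uIoc] with x hx
      rw [uIoc_of_le zero_le_one] at hx
      obtain ⟨hx0, hx1⟩ := hx
      have h1 := hc x hx0
      have h2 := (Real.abs_log_mul_self_lt x hx0 hx1).le
      rw [abs_mul, abs_of_pos hx0] at h2
      rw [Real.norm_eq_abs, abs_of_nonneg (by positivity)]
      have h3 : x * |f1 x| ≤ c + 1 := by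
        have := mul_le_mul_of_nonneg_left h1 hx0.le
        nlinarith [abs_nonneg (Real.log x)]
      have h4 : x * f1 x ^ 2 = (x * |f1 x|) * |f1 x| := by rw [mul_assoc, ← sq, sq_abs]
      rw [h4]
      exact mul_le_mul h3 h1 (abs_nonneg _) (by linarith)
  rcases ht.eq_or_lt with rfl | ht
  · exact IntervalIntegrable.refl
  · refine key.trans ?_
    apply ContinuousOn.intervalIntegrable
    exact (continuousOn_id.mul (h.cont1.pow 2)).mono (uIcc_pos one_pos ht)

theorem Adm.iF (h : Adm f f1 f2) {t : ℝ} (ht : 0 ≤ t) :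
    IntervalIntegrable (fun x => f x ^ 2) volume 0 t := by
  have key : IntervalIntegrable (fun x => f x ^ 2) volume 0 1 := by
    obtain ⟨M, hM0, hM⟩ := h.bdd
    refine (intervalIntegrable_const (c := M ^ 2)).mono_fun' ?_ ?_
    · refine mm (h.m0.pow 2) ?_
      rw [uIoc_of_le zero_le_one]
      exact fun x hx => hx.1
    · filter_upwards [ae_restrict_mem measurableSet_uIoc] with x hx
      rw [uIoc_of_le zero_le_one] at hx
      rw [Real.norm_eq_abs, abs_of_nonneg (by positivity), ← sq_abs]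
      exact pow_le_pow_left₀ (abs_nonneg _) (hM x hx.1 hx.2) 2
  rcases ht.eq_or_lt with rfl | ht
  · exact IntervalIntegrable.refl
  · refine key.trans ?_
    apply ContinuousOn.intervalIntegrable
    exact (h.cont.pow 2).mono (uIcc_pos one_pos ht)

/-- the integral of `f²` over `(0, R)` is bounded -/
theorem Adm.F_bdd (h : Adm f f1 f2) : ∃ M, 0 ≤ M ∧ ∀ R, 1 ≤ R → ∫ x in (0:ℝ)..R, f x ^ 2 ≤ M := by
  have hA : 0 ≤ ∫ x in Ioi 0, x * f x ^ 2 :=
    setIntegral_nonneg measurableSet_Ioi fun x hx => by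
      have : (0:ℝ) < x := hx
      positivity
  have h1 : 0 ≤ ∫ x in (0:ℝ)..1, f x ^ 2 :=
    intervalIntegral.integral_nonneg zero_le_one fun _ _ => sq_nonneg _
  refine ⟨(∫ x in (0:ℝ)..1, f x ^ 2) + ∫ x in Ioi 0, x * f x ^ 2, by positivity, fun R hR => ?_⟩
  have hR0 : 0 < R := by linarith
  have hc : IntervalIntegrable (fun x => f x ^ 2) volume 1 R := by
    apply ContinuousOn.intervalIntegrable
    exact (h.cont.pow 2).mono (uIcc_pos one_pos hR0)
  rw [← intervalIntegral.integral_add_adjacent_intervals (h.iF zero_le_one) hc]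
  apply add_le_add le_rfl
  have hc2 : IntervalIntegrable (fun x => x * f x ^ 2) volume 1 R := by
    apply ContinuousOn.intervalIntegrable
    exact (continuousOn_id.mul (h.cont.pow 2)).mono (uIcc_pos one_pos hR0)
  have h2 : ∫ x in (1:ℝ)..R, f x ^ 2 ≤ ∫ x in (1:ℝ)..R, x * f x ^ 2 := by
    apply intervalIntegral.integral_mono_on hR hc hc2
    intro x hx
    have := hx.1
    nlinarith [sq_nonneg (f x)]
  refine h2.trans ?_
  rw [intervalIntegral.integral_of_le hR]
  apply setIntegral_mono_set h.iA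
  · filter_upwards [ae_restrict_mem measurableSet_Ioi] with x hx
    have : (0:ℝ) < x := hx
    positivity
  · exact (LE.le.eventuallyLE fun x hx => lt_trans one_pos hx.1)

/-- the weight -/
noncomputable def w (R x : ℝ) : ℝ := x * (1 - x / R) ^ 2

theorem w_bd {R x : ℝ} (hx : 0 ≤ x) (hxR : x ≤ R) (hR : 0 < R) : 0 ≤ w R x ∧ w R x ≤ x := by
  unfold w
  have h1 : 0 ≤ x / R := by positivity
  have h2 : x / R ≤ 1 := by rw [div_le_one hR]; exact hxR
  constructor
  · positivity
  · have : (1 - x / R) ^ 2 ≤ 1 := by nlinarith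
    nlinarith

/-- integration by parts -/
theorem Adm.parts (h : Adm f f1 f2) {R : ℝ} (hR : 0 < R) :
    ∫ x in (0:ℝ)..R, w R x * f1 x ^ 2 = a0 f f1 ^ 2 / 2 - (∫ x in (0:ℝ)..R, w R x * (f x * f2 x))
      + ∫ x in (0:ℝ)..R, (3 * x / R ^ 2 - 2 / R) * f x ^ 2 := by
  -- integrability
  have hsub : Ioc 0 R ⊆ Ioi (0:ℝ) := fun x hx => hx.1
  have hwc : Continuous (w R) := by unfold w; fun_prop
  have i1 : IntervalIntegrable (fun x => w R x * f1 x ^ 2) volume 0 R := by
    refine (h.iB1 hR.le).mono_fun' ?_ ?_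
    · refine mm (hwc.aestronglyMeasurable.mul (h.m1.pow 2)) ?_
      rw [uIoc_of_le hR.le]; exact hsub
    · filter_upwards [ae_restrict_mem measurableSet_uIoc] with x hx
      rw [uIoc_of_le hR.le] at hx
      have hb := w_bd hx.1.le hx.2 hR
      rw [Real.norm_eq_abs, abs_of_nonneg (mul_nonneg hb.1 (sq_nonneg _))]
      exact mul_le_mul_of_nonneg_right hb.2 (sq_nonneg _)
  have i02 : IntervalIntegrable (fun x => x * (f x * f2 x)) volume 0 R := by
    rw [intervalIntegrable_iff_integrableOn_Ioc_of_le hR.le]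
    exact h.i02.mono_set hsub
  have i2 : IntervalIntegrable (fun x => w R x * (f x * f2 x)) volume 0 R := by
    refine i02.norm.mono_fun' ?_ ?_
    · refine mm (hwc.aestronglyMeasurable.mul (h.m0.mul h.m2)) ?_
      rw [uIoc_of_le hR.le]; exact hsub
    · filter_upwards [ae_restrict_mem measurableSet_uIoc] with x hx
      rw [uIoc_of_le hR.le] at hx
      have hb := w_bd hx.1.le hx.2 hR
      rw [norm_mul, norm_mul x, Real.norm_eq_abs (w R x), abs_of_nonneg hb.1,
        Real.norm_eq_abs x, abs_of_pos hx.1]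
      exact mul_le_mul_of_nonneg_right hb.2 (norm_nonneg _)
  have i3 : IntervalIntegrable (fun x => (3 * x / R ^ 2 - 2 / R) * f x ^ 2) volume 0 R := by
    have hc : ContinuousOn (fun x : ℝ => 3 * x / R ^ 2 - 2 / R) (uIcc 0 R) := by fun_prop
    exact (h.iF hR.le).continuousOn_mul hc
  -- the primitive
  set Pr : ℝ → ℝ := fun x => w R x * (f x * f1 x) - (1 - x / R) * (1 - 3 * x / R) * f x ^ 2 / 2
    with hPr
  have hder : ∀ x ∈ Ioo 0 R, HasDerivAt Pr (w R x * f1 x ^ 2 + w R x * (f x * f2 x)
      - (3 * x / R ^ 2 - 2 / R) * f x ^ 2) x := by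
    intro x hx
    have d0 := h.h1 x hx.1
    have d1 := h.h2 x hx.1
    have hw : HasDerivAt (w R) ((1 - x / R) * (1 - 3 * x / R)) x := by
      unfold w
      have := (hasDerivAt_id x).mul ((((hasDerivAt_id x).div_const R).const_sub 1).pow 2)
      refine this.congr_deriv ?_
      simp only [id, Pi.pow_apply]
      push_cast
      ring
    have hw2 : HasDerivAt (fun x : ℝ => (1 - x / R) * (1 - 3 * x / R))
        (6 * x / R ^ 2 - 4 / R) x := by
      have := (((hasDerivAt_id x).div_const R).const_sub 1).mul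
        ((((hasDerivAt_id x).const_mul 3).div_const R).const_sub 1)
      refine this.congr_deriv ?_
      simp only [id]
      field_simp
      ring
    have := (hw.mul (d0.mul d1)).sub ((hw2.mul (d0.pow 2)).div_const 2)
    refine this.congr_deriv ?_
    simp only [Pi.mul_apply, Pi.pow_apply]
    ring
  have hl0 : Tendsto Pr (𝓝[>] 0) (𝓝 (-(a0 f f1 ^ 2 / 2))) := by
    have t1 : Tendsto (fun x => (1 - x / R) ^ 2 * (f x * (x * f1 x))) (𝓝[>] 0)
        (𝓝 ((1 - 0 / R) ^ 2 * (a0 f f1 * 0))) := by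
      apply Tendsto.mul
      · exact ((by fun_prop : Continuous fun x : ℝ => (1 - x / R) ^ 2).tendsto 0).mono_left
          nhdsWithin_le_nhds
      · exact h.lim0.mul h.lim1
    have t2 : Tendsto (fun x => (1 - x / R) * (1 - 3 * x / R) * f x ^ 2 / 2) (𝓝[>] 0)
        (𝓝 ((1 - 0 / R) * (1 - 3 * 0 / R) * a0 f f1 ^ 2 / 2)) := by
      apply Tendsto.div_const
      apply Tendsto.mul
      · exact ((by fun_prop : Continuous fun x : ℝ => (1 - x / R) * (1 - 3 * x / R)).tendsto
          0).mono_left nhdsWithin_le_nhds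
      · exact h.lim0.pow 2
    have t3 := t1.sub t2
    have e1 : (1 - 0 / R) ^ 2 * (a0 f f1 * 0) - (1 - 0 / R) * (1 - 3 * 0 / R) * a0 f f1 ^ 2 / 2
        = -(a0 f f1 ^ 2 / 2) := by ring
    rw [e1] at t3
    refine t3.congr fun x => ?_
    rw [hPr]
    simp only [w]
    ring
  have hlR : Tendsto Pr (𝓝[<] R) (𝓝 0) := by
    have hcf := (h.h1 R hR).continuousAt
    have hcf1 := (h.h2 R hR).continuousAt
    have hcP : ContinuousAt Pr R := by
      rw [hPr]
      have c1 : ContinuousAt (fun x : ℝ => (1 - x / R) * (1 - 3 * x / R)) R :=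
        (by fun_prop : Continuous fun x : ℝ => (1 - x / R) * (1 - 3 * x / R)).continuousAt
      exact (hwc.continuousAt.mul (hcf.mul hcf1)).sub ((c1.mul (hcf.pow 2)).div_const 2)
    have : Pr R = 0 := by
      rw [hPr]
      simp only [w, div_self hR.ne']
      ring
    rw [← this]
    exact hcP.tendsto.mono_left nhdsWithin_le_nhds
  have key := intervalIntegral.integral_eq_sub_of_hasDerivAt_of_tendsto hR hder
    ((i1.add i2).sub i3) hl0 hlR
  rw [intervalIntegral.integral_sub (i1.add i2) i3, intervalIntegral.integral_add i1 i2] at key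
  linarith

end Q41.EG
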