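import Pool.Agent.Q41.EG.Weak

/-! The quadratic inequality, scaling, and the case of equality. -/

set_option autoImplicit false

open MeasureTheory Set Filter Topology

namespace Q41.EG

variable {f f1 f2 : ℝ → ℝ} {m : ℝ}

/-- measurability is automatic -/
theorem meas_of_der (h2 : ∀ x, 0 < x → HasDerivAt f1 (f2 x) x) :
    AEStronglyMeasurable f2 (volume.restrict (Ioi 0)) := by
  refine (measurable_deriv f1).aestronglyMeasurable.congr ?_
  filter_upwards [ae_restrict_mem measurableSet_Ioi] with x hx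
  exact (h2 x hx).deriv

/-- the integral of the quadratic integrand -/
theorem Adm.quad (h : Adm f f1 f2) (K : ℝ) :
    IntegrableOn (fun x => x * f2 x ^ 2 + 2 * (x * (f x * f2 x)) + K * (x * f x ^ 2)) (Ioi 0) ∧
    ∫ x in Ioi 0, (x * f2 x ^ 2 + 2 * (x * (f x * f2 x)) + K * (x * f x ^ 2)) =
      (∫ x in Ioi 0, x * f2 x ^ 2) + 2 * (∫ x in Ioi 0, x * (f x * f2 x)) +
        K * ∫ x in Ioi 0, x * f x ^ 2 := by
  have j1 : IntegrableOn (fun x => 2 * (x * (f x * f2 x))) (Ioi 0) := h.i02.const_mul 2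
  have j2 : IntegrableOn (fun x => K * (x * f x ^ 2)) (Ioi 0) := h.iA.const_mul K
  have j3 : IntegrableOn (fun x => x * f2 x ^ 2 + 2 * (x * (f x * f2 x))) (Ioi 0) := h.iC.add j1
  refine ⟨j3.add j2, ?_⟩
  rw [integral_add j3 j2, integral_add h.iC j1, integral_const_mul, integral_const_mul]

theorem pos1 (h1 : 1 / 2 < m) (h2 : m < 1) (hg0 : 0 < g m 0 0) (hg2 : g m 2 0 = 0)
    (h : Adm f f1 f2) : 0 ≤ (∫ x in Ioi 0, x * f2 x ^ 2) - 2 * (∫ x in Ioi 0, x * f1 x ^ 2) +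
      Rr m ^ 4 * ∫ x in Ioi 0, x * f x ^ 2 := by
  obtain ⟨q1, q2⟩ := h.quad (Rr m ^ 4)
  have hW := Wf_int h1 h2 h
  have hg := g_adm h1 h2
  have hWg := Wf_int h1 h2 hg
  have e1 := weak h1 h2 h
  have e2 := weak h1 h2 hg
  rw [hg2, add_zero] at e1 e2
  rw [g_a0 h1 h2] at e2
  set t : ℝ := a0 f f1 / g m 0 0 with ht
  have hta : t * g m 0 0 = a0 f f1 := by rw [ht]; field_simp
  have hR4 : 1 ≤ Rr m ^ 4 := one_le_pow₀ (Rr_ge h1 h2)
  have i1 : IntegrableOn (fun x => 2 * t * Wf m f f2 x) (Ioi 0) := hW.const_mul _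
  have i2 : IntegrableOn (fun x => t ^ 2 * Wf m (g m 0) (g m 2) x) (Ioi 0) := hWg.const_mul _
  have i3 : IntegrableOn (fun x => (x * f2 x ^ 2 + 2 * (x * (f x * f2 x)) +
    Rr m ^ 4 * (x * f x ^ 2)) - 2 * t * Wf m f f2 x) (Ioi 0) := q1.sub i1
  have key : 0 ≤ ∫ x in Ioi 0, (((x * f2 x ^ 2 + 2 * (x * (f x * f2 x)) +
      Rr m ^ 4 * (x * f x ^ 2)) - 2 * t * Wf m f f2 x) + t ^ 2 * Wf m (g m 0) (g m 2) x) := by
    apply setIntegral_nonneg measurableSet_Ioi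
    intro x hx
    have hx' : (0:ℝ) < x := hx
    have e : ((x * f2 x ^ 2 + 2 * (x * (f x * f2 x)) +
      Rr m ^ 4 * (x * f x ^ 2)) - 2 * t * Wf m f f2 x) + t ^ 2 * Wf m (g m 0) (g m 2) x =
      x * ((f2 x + f x) - t * (g m 2 x + g m 0 x)) ^ 2 +
        (Rr m ^ 4 - 1) * (x * (f x - t * g m 0 x) ^ 2) := by
      unfold Wf
      ring
    rw [e]
    have : 0 ≤ Rr m ^ 4 - 1 := by linarith
    positivity
  rw [integral_add i3 i2, integral_sub q1 i1, integral_const_mul, integral_const_mul, q2, e1,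
    e2] at key
  have hid := h.ident
  have e3 : 2 * t * (g m 0 0 * a0 f f1) = 2 * a0 f f1 ^ 2 := by rw [← hta]; ring
  have e4 : t ^ 2 * (g m 0 0 * g m 0 0) = a0 f f1 ^ 2 := by rw [← hta]; ring
  rw [e3, e4] at key
  linarith

/-- equality for the extremal function -/
theorem eq1 (h1 : 1 / 2 < m) (h2 : m < 1) (hg2 : g m 2 0 = 0) :
    (∫ x in Ioi 0, x * g m 2 x ^ 2) - 2 * (∫ x in Ioi 0, x * g m 1 x ^ 2) +
      Rr m ^ 4 * ∫ x in Ioi 0, x * g m 0 x ^ 2 = 0 := by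
  have hg := g_adm h1 h2
  obtain ⟨q1, q2⟩ := hg.quad (Rr m ^ 4)
  have e2 := weak h1 h2 hg
  rw [hg2, add_zero, g_a0 h1 h2] at e2
  have hid := hg.ident
  rw [g_a0 h1 h2] at hid
  have e3 : ∫ x in Ioi 0, Wf m (g m 0) (g m 2) x = ∫ x in Ioi 0, (x * g m 2 x ^ 2 +
      2 * (x * (g m 0 x * g m 2 x)) + Rr m ^ 4 * (x * g m 0 x ^ 2)) := by
    congr 1
    ext x
    unfold Wf
    ring
  rw [e3, q2] at e2
  linarith

theorem sc_int {F : ℝ → ℝ} {l : ℝ} (hl : 0 < l) (hF : IntegrableOn (fun x => x * F x) (Ioi 0)) :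
    IntegrableOn (fun x => x * F (l * x)) (Ioi 0) ∧
    ∫ x in Ioi 0, x * F (l * x) = l⁻¹ ^ 2 * ∫ x in Ioi 0, x * F x := by
  have h1 := (integrableOn_Ioi_comp_mul_left_iff (fun x => x * F x) 0 hl).mpr
    (by rw [mul_zero]; exact hF)
  have h2 := integral_comp_mul_left_Ioi (fun x => x * F x) 0 hl
  rw [mul_zero, smul_eq_mul] at h2
  have e : (fun x => x * F (l * x)) = fun x => l⁻¹ * (l * x * F (l * x)) := by
    ext x
    field_simp
  constructor
  · rw [e]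
    exact h1.const_mul _
  · rw [e, integral_const_mul, h2]
    ring

theorem Adm.scale (h : Adm f f1 f2) {l : ℝ} (hl : 0 < l) :
    Adm (fun x => f (l * x)) (fun x => l * f1 (l * x)) (fun x => l ^ 2 * f2 (l * x)) := by
  have d : ∀ x : ℝ, HasDerivAt (fun x => l * x) l x := fun x => by
    simpa using (hasDerivAt_id x).const_mul l
  have s1 : ∀ x, 0 < x → HasDerivAt (fun x => f (l * x)) (l * f1 (l * x)) x := by
    intro x hx
    have := (h.h1 (l * x) (by positivity)).comp x (d x)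
    refine this.congr_deriv (mul_comm _ _)
  have s2 : ∀ x, 0 < x → HasDerivAt (fun x => l * f1 (l * x)) (l ^ 2 * f2 (l * x)) x := by
    intro x hx
    have := ((h.h2 (l * x) (by positivity)).comp x (d x)).const_mul l
    refine this.congr_deriv ?_
    ring
  refine ⟨s1, s2, meas_of_der s2, ?_, ?_⟩
  · exact (sc_int (F := fun x => f x ^ 2) hl h.iA).1
  · have := (sc_int (F := fun x => f2 x ^ 2) hl h.iC).1.const_mul (l ^ 4)
    refine this.congr (Eventually.of_forall fun x => ?_)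
    ring

theorem main_ineq (h1 : 1 / 2 < m) (h2 : m < 1) (hg0 : 0 < g m 0 0) (hg2 : g m 2 0 = 0)
    (h : Adm f f1 f2) : (∫ x in Ioi 0, x * f1 x ^ 2) ^ 2 ≤
      Rr m ^ 4 * (∫ x in Ioi 0, x * f x ^ 2) * ∫ x in Ioi 0, x * f2 x ^ 2 := by
  set A := ∫ x in Ioi 0, x * f x ^ 2 with hA
  set B := ∫ x in Ioi 0, x * f1 x ^ 2 with hB
  set C := ∫ x in Ioi 0, x * f2 x ^ 2 with hC
  have hnn : ∀ u : ℝ → ℝ, 0 ≤ ∫ x in Ioi 0, x * u x ^ 2 := fun u =>
    setIntegral_nonneg measurableSet_Ioi fun x hx => by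
      have : (0:ℝ) < x := hx
      positivity
  have hA0 : 0 ≤ A := hnn f
  have hB0 : 0 ≤ B := hnn f1
  have hC0 : 0 ≤ C := hnn f2
  have hR : 0 < Rr m := Rr_pos h1
  have key : ∀ y : ℝ, 0 ≤ C * (y * y) + (-2 * B) * y + Rr m ^ 4 * A := by
    intro y
    rcases le_or_gt y 0 with hy | hy
    · have : 0 ≤ B * (-y) := mul_nonneg hB0 (by linarith)
      have : 0 ≤ C * (y * y) := mul_nonneg hC0 (mul_self_nonneg y)
      have : 0 ≤ Rr m ^ 4 * A := by positivity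
      nlinarith
    · have hl : 0 < √y := Real.sqrt_pos.mpr hy
      have hp := pos1 h1 h2 hg0 hg2 (h.scale hl)
      have eA : ∫ x in Ioi 0, x * f (√y * x) ^ 2 = (√y)⁻¹ ^ 2 * A :=
        (sc_int (F := fun x => f x ^ 2) hl h.iA).2
      have eB : ∫ x in Ioi 0, x * (√y * f1 (√y * x)) ^ 2 = B := by
        have e := (sc_int (F := fun x => f1 x ^ 2) hl h.iB).2
        have e' : ∫ x in Ioi 0, x * (√y * f1 (√y * x)) ^ 2 =
            (√y) ^ 2 * ∫ x in Ioi 0, x * f1 (√y * x) ^ 2 := by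
          rw [← integral_const_mul]
          congr 1
          ext x
          ring
        rw [e', e, ← mul_assoc, ← mul_pow, mul_inv_cancel₀ hl.ne', one_pow, one_mul]
      have eC : ∫ x in Ioi 0, x * ((√y) ^ 2 * f2 (√y * x)) ^ 2 = y * C := by
        have e := (sc_int (F := fun x => f2 x ^ 2) hl h.iC).2
        have e' : ∫ x in Ioi 0, x * ((√y) ^ 2 * f2 (√y * x)) ^ 2 =
            (√y) ^ 4 * ∫ x in Ioi 0, x * f2 (√y * x) ^ 2 := by
          rw [← integral_const_mul]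
          congr 1
          ext x
          ring
        have e4 : (√y) ^ 4 * ((√y)⁻¹ ^ 2 * C) = (√y * (√y)⁻¹) ^ 2 * ((√y) ^ 2 * C) := by ring
        rw [e', e, e4, mul_inv_cancel₀ hl.ne', one_pow, one_mul, Real.sq_sqrt hy.le]
      rw [eA, eB, eC, inv_pow, Real.sq_sqrt hy.le] at hp
      have := mul_nonneg hy.le hp
      have e5 : y * (y * C - 2 * B + Rr m ^ 4 * (y⁻¹ * A)) =
        C * (y * y) + (-2 * B) * y + Rr m ^ 4 * A := by
        field_simp
        ring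
      rwa [e5] at this
  have hd := discrim_le_zero key
  unfold discrim at hd
  nlinarith

theorem main_AC (h1 : 1 / 2 < m) (h2 : m < 1) (hg0 : 0 < g m 0 0) (hg2 : g m 2 0 = 0) :
    0 < (∫ x in Ioi 0, x * g m 0 x ^ 2) * (∫ x in Ioi 0, x * g m 2 x ^ 2) ∧
    (∫ x in Ioi 0, x * g m 1 x ^ 2) ^ 2 =
      Rr m ^ 4 * (∫ x in Ioi 0, x * g m 0 x ^ 2) * ∫ x in Ioi 0, x * g m 2 x ^ 2 := by
  have hg := g_adm h1 h2
  have hm := main_ineq h1 h2 hg0 hg2 hg
  have he := eq1 h1 h2 hg2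
  have hid := hg.ident
  rw [g_a0 h1 h2] at hid
  have hX : (∫ x in Ioi 0, x * (g m 0 x * g m 2 x)) ≤
      (∫ x in Ioi 0, x * g m 0 x ^ 2) + ∫ x in Ioi 0, x * g m 2 x ^ 2 := by
    rw [← integral_add hg.iA hg.iC]
    apply setIntegral_mono_on hg.i02 (hg.iA.add hg.iC) measurableSet_Ioi
    intro x hx
    have hx' : (0:ℝ) < x := hx
    have : 0 ≤ x * ((g m 0 x - g m 2 x) ^ 2 + g m 0 x ^ 2 + g m 2 x ^ 2) := by positivity
    show x * (g m 0 x * g m 2 x) ≤ x * g m 0 x ^ 2 + x * g m 2 x ^ 2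
    nlinarith
  have hnn : ∀ u : ℝ → ℝ, 0 ≤ ∫ x in Ioi 0, x * u x ^ 2 := fun u =>
    setIntegral_nonneg measurableSet_Ioi fun x hx => by
      have : (0:ℝ) < x := hx
      positivity
  have hA0 := hnn (g m 0)
  have hB0 := hnn (g m 1)
  have hC0 := hnn (g m 2)
  generalize (∫ x in Ioi 0, x * g m 0 x ^ 2) = A at *
  generalize (∫ x in Ioi 0, x * g m 1 x ^ 2) = B at *
  generalize (∫ x in Ioi 0, x * g m 2 x ^ 2) = C at *
  generalize (∫ x in Ioi 0, x * (g m 0 x * g m 2 x)) = X at *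
  have hR : 1 ≤ Rr m ^ 4 := one_le_pow₀ (Rr_ge h1 h2)
  generalize Rr m ^ 4 = K at *
  have hB : B = (C + K * A) / 2 := by linarith
  have h6 : K * A * C ≤ B ^ 2 := by
    rw [hB]
    nlinarith [sq_nonneg (C - K * A)]
  refine ⟨?_, le_antisymm hm h6⟩
  by_contra hcon
  have h0 : A * C = 0 := le_antisymm (not_lt.mp hcon) (mul_nonneg hA0 hC0)
  have hB2 : B ^ 2 ≤ 0 := by nlinarith
  have hB3 : B = 0 := by nlinarith
  have hKA : 0 ≤ K * A := by positivity
  have hC1 : C = 0 := by linarith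
  have hA1 : A = 0 := by nlinarith
  have hg00 : 0 < g m 0 0 ^ 2 := by positivity
  nlinarith

end Q41.EG
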