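import Pool.Agent.Q41.EG.Ident
import Pool.Agent.Q41.EG.Gfun

/-! The weak identity satisfied by the extremal function. -/

set_option autoImplicit false

open MeasureTheory Set Filter Topology

namespace Q41.EG

variable {f f1 f2 : ℝ → ℝ} {m : ℝ}

/-- real parts -/
noncomputable def g (m : ℝ) (j : ℕ) (x : ℝ) : ℝ := (GG m j x).re

/-- the bound -/
noncomputable def DD (m : ℝ) : ℝ := Rr m ^ 4 / √(1 - m) * Real.pi

theorem Rr_ge (h1 : 1 / 2 < m) (h2 : m < 1) : 1 ≤ Rr m := by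
  have h3 := Rr_sq h1
  have h4 := Rr_pos h1
  by_contra hc
  push Not at hc
  have : Rr m ^ 2 < 1 := by nlinarith
  nlinarith

theorem DD_pos (h1 : 1 / 2 < m) (h2 : m < 1) : 0 < DD m := by
  have h3 : 0 < √(1 - m) := Real.sqrt_pos.mpr (by linarith)
  have := Rr_pos h1
  have := Real.pi_pos
  unfold DD
  positivity

theorem g_der (h1 : 1 / 2 < m) (h2 : m < 1) (j : ℕ) (x : ℝ) :
    HasDerivAt (g m j) (g m (j + 1) x) x := by
  have := GG_der h1 h2 j x
  exact (Complex.reCLM.hasFDerivAt.comp_hasDerivAt x this)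

theorem g_cont (h1 : 1 / 2 < m) (h2 : m < 1) (j : ℕ) : Continuous (g m j) :=
  continuous_iff_continuousAt.mpr fun x => (g_der h1 h2 j x).continuousAt

theorem g_bd (h1 : 1 / 2 < m) (h2 : m < 1) {j : ℕ} (hj : j ≤ 4) {x : ℝ} (hx : 0 ≤ x) :
    |g m j x| ≤ DD m * Real.exp (-rr m * x) := by
  refine (Complex.abs_re_le_norm _).trans ((GG_norm h1 h2 j hx).trans ?_)
  have h3 : 0 < √(1 - m) := Real.sqrt_pos.mpr (by linarith)
  have := Real.pi_pos
  unfold DD
  gcongr
  exact Rr_ge h1 h2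

theorem g_ode (h1 : 1 / 2 < m) (h2 : m < 1) (x : ℝ) :
    x * (g m 4 x + 2 * g m 2 x + Rr m ^ 4 * g m 0 x) + 2 * g m 3 x + 2 * g m 1 x = 0 := by
  have h := congrArg Complex.re (GG_ode h1 h2 x)
  have e : ((Rr m : ℂ) ^ 4) = ((Rr m ^ 4 : ℝ) : ℂ) := by push_cast; ring
  have e2 : (2 : ℂ) = ((2 : ℝ) : ℂ) := by norm_num
  rw [e, e2] at h
  simp only [Complex.add_re, Complex.re_ofReal_mul, Complex.zero_re] at h
  exact h

/-- weighted square integrability from exponential decay -/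
theorem dec_int {u : ℝ → ℝ} {D r : ℝ} (hr : 0 < r) (hu : Continuous u)
    (hb : ∀ x, 0 ≤ x → |u x| ≤ D * Real.exp (-r * x)) :
    IntegrableOn (fun x => x * u x ^ 2) (Ioi 0) := by
  have h1 : IntegrableOn (fun x => D ^ 2 / r * Real.exp (-r * x)) (Ioi 0) :=
    (exp_neg_integrableOn_Ioi 0 hr).const_mul _
  refine Integrable.mono' h1 (by fun_prop) ?_
  filter_upwards [ae_restrict_mem measurableSet_Ioi] with x hx
  have hx' : (0:ℝ) < x := hx
  rw [Real.norm_eq_abs, abs_of_nonneg (by positivity), ← sq_abs]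
  have h2 := hb x hx'.le
  have h3 : |u x| ^ 2 ≤ (D * Real.exp (-r * x)) ^ 2 := pow_le_pow_left₀ (abs_nonneg _) h2 2
  have h4 : r * x * Real.exp (-r * x) ≤ 1 := by
    have h5 := Real.add_one_le_exp (r * x)
    have h6 : Real.exp (r * x) * Real.exp (-r * x) = 1 := by
      rw [← Real.exp_add]; simp
    have h7 := Real.exp_pos (-r * x)
    nlinarith
  have h8 : x * (D * Real.exp (-r * x)) ^ 2 =
      D ^ 2 / r * Real.exp (-r * x) * (r * x * Real.exp (-r * x)) := by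
    field_simp
  calc x * |u x| ^ 2 ≤ x * (D * Real.exp (-r * x)) ^ 2 := mul_le_mul_of_nonneg_left h3 hx'.le
    _ = _ := h8
    _ ≤ D ^ 2 / r * Real.exp (-r * x) * 1 :=
      mul_le_mul_of_nonneg_left h4 (by positivity)
    _ = _ := by ring

theorem g_int (h1 : 1 / 2 < m) (h2 : m < 1) {j : ℕ} (hj : j ≤ 4) :
    IntegrableOn (fun x => x * g m j x ^ 2) (Ioi 0) :=
  dec_int (rr_pos h1 h2) (g_cont h1 h2 j) fun _ hx => g_bd h1 h2 hj hx

theorem g_adm (h1 : 1 / 2 < m) (h2 : m < 1) : Adm (g m 0) (g m 1) (g m 2) where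
  h1 x _ := g_der h1 h2 0 x
  h2 x _ := g_der h1 h2 1 x
  m2 := (g_cont h1 h2 2).aestronglyMeasurable
  iA := g_int h1 h2 (by norm_num)
  iC := g_int h1 h2 (by norm_num)

theorem g_a0 (h1 : 1 / 2 < m) (h2 : m < 1) : a0 (g m 0) (g m 1) = g m 0 0 := by
  have h3 := (g_adm h1 h2).lim0
  have h4 : Tendsto (g m 0) (𝓝[>] 0) (𝓝 (g m 0 0)) :=
    ((g_cont h1 h2 0).tendsto 0).mono_left nhdsWithin_le_nhds
  exact tendsto_nhds_unique h3 h4

/-- polynomial times exponential decay -/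
theorem decay0 {r : ℝ} (hr : 0 < r) : Tendsto (fun x : ℝ => x ^ 3 * Real.exp (-r * x)) atTop (𝓝 0) := by
  have h := (isLittleO_pow_exp_pos_mul_atTop 3 hr).tendsto_div_nhds_zero
  refine h.congr fun x => ?_
  rw [neg_mul, Real.exp_neg, div_eq_mul_inv]

/-- products with the extremal function -/
theorem pr_int (h1 : 1 / 2 < m) (h2 : m < 1) (h : Adm f f1 f2) :
    IntegrableOn (fun x => x * (g m 2 x * f2 x)) (Ioi 0) ∧
    IntegrableOn (fun x => x * (g m 2 x * f x)) (Ioi 0) ∧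
    IntegrableOn (fun x => x * (g m 0 x * f2 x)) (Ioi 0) ∧
    IntegrableOn (fun x => x * (g m 0 x * f x)) (Ioi 0) := by
  have i0 := g_int h1 h2 (j := 0) (by norm_num)
  have i2 := g_int h1 h2 (j := 2) (by norm_num)
  have m0 : AEStronglyMeasurable (g m 0) (volume.restrict (Ioi 0)) :=
    (g_cont h1 h2 0).aestronglyMeasurable
  have m2 : AEStronglyMeasurable (g m 2) (volume.restrict (Ioi 0)) :=
    (g_cont h1 h2 2).aestronglyMeasurable
  exact ⟨mul_int i2 h.iC m2 h.m2, mul_int i2 h.iA m2 h.m0, mul_int i0 h.iC m0 h.m2,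
    mul_int i0 h.iA m0 h.m0⟩

/-- the integrand of the bilinear form -/
noncomputable def Wf (m : ℝ) (f f2 : ℝ → ℝ) (x : ℝ) : ℝ :=
  x * (g m 2 x * f2 x) + x * (g m 2 x * f x) + x * (g m 0 x * f2 x) +
    Rr m ^ 4 * (x * (g m 0 x * f x))

theorem Wf_int (h1 : 1 / 2 < m) (h2 : m < 1) (h : Adm f f1 f2) :
    IntegrableOn (Wf m f f2) (Ioi 0) := by
  obtain ⟨j1, j2, j3, j4⟩ := pr_int h1 h2 h
  exact ((j1.add j2).add j3).add (j4.const_mul _)

/-- the weak identity -/
theorem weak (h1 : 1 / 2 < m) (h2 : m < 1) (h : Adm f f1 f2) :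
    ∫ x in Ioi 0, Wf m f f2 x = (g m 0 0 + g m 2 0) * a0 f f1 := by
  set P : ℝ → ℝ := fun x => x * (g m 2 x + g m 0 x) * f1 x -
    ((g m 2 x + g m 0 x) + x * (g m 3 x + g m 1 x)) * f x with hP
  have hder : ∀ x, 0 < x → HasDerivAt P (Wf m f f2 x) x := by
    intro x hx
    have d0 := g_der h1 h2 0 x
    have d1 := g_der h1 h2 1 x
    have d2 := g_der h1 h2 2 x
    have d3 := g_der h1 h2 3 x
    have e1 := (((hasDerivAt_id x).mul (d2.add d0)).mul (h.h2 x hx)).sub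
      (((d2.add d0).add ((hasDerivAt_id x).mul (d3.add d1))).mul (h.h1 x hx))
    refine e1.congr_deriv ?_
    have ho := g_ode h1 h2 x
    simp only [Pi.mul_apply, Pi.add_apply, id]
    unfold Wf
    linear_combination (-f x) * ho
  have hWi := Wf_int h1 h2 h
  have hl0 : Tendsto P (𝓝[>] 0) (𝓝 (-((g m 0 0 + g m 2 0) * a0 f f1))) := by
    have c20 : Continuous fun x => g m 2 x + g m 0 x := (g_cont h1 h2 2).add (g_cont h1 h2 0)
    have c31 : Continuous fun x => g m 3 x + g m 1 x := (g_cont h1 h2 3).add (g_cont h1 h2 1)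
    have t1 : Tendsto (fun x => (g m 2 x + g m 0 x) * (x * f1 x)) (𝓝[>] 0)
        (𝓝 ((g m 2 0 + g m 0 0) * 0)) :=
      ((c20.tendsto 0).mono_left nhdsWithin_le_nhds).mul h.lim1
    have c : Continuous fun x => (g m 2 x + g m 0 x) + x * (g m 3 x + g m 1 x) := by fun_prop
    have t2 : Tendsto (fun x => ((g m 2 x + g m 0 x) + x * (g m 3 x + g m 1 x)) * f x) (𝓝[>] 0)
        (𝓝 (((g m 2 0 + g m 0 0) + 0 * (g m 3 0 + g m 1 0)) * a0 f f1)) :=
      ((c.tendsto 0).mono_left nhdsWithin_le_nhds).mul h.lim0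
    have t3 := t1.sub t2
    have e : (g m 2 0 + g m 0 0) * 0 - ((g m 2 0 + g m 0 0) + 0 * (g m 3 0 + g m 1 0)) * a0 f f1 =
      -((g m 0 0 + g m 2 0) * a0 f f1) := by ring
    rw [e] at t3
    refine t3.congr fun x => ?_
    rw [hP]
    ring
  have hinf : Tendsto P atTop (𝓝 0) := by
    obtain ⟨c, hc0, hc⟩ := h.large
    have hD := DD_pos h1 h2
    have hr := rr_pos h1 h2
    rw [tendsto_zero_iff_abs_tendsto_zero]
    have hlim : Tendsto (fun x : ℝ => DD m * (2 * (c + 1) + 4 * (2 * c + 1)) *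
        (x ^ 3 * Real.exp (-rr m * x))) atTop (𝓝 (DD m * (2 * (c + 1) + 4 * (2 * c + 1)) * 0)) :=
      (decay0 hr).const_mul _
    rw [mul_zero] at hlim
    refine squeeze_zero' (Eventually.of_forall fun x => abs_nonneg _) ?_ hlim
    filter_upwards [eventually_ge_atTop 1] with x hx
    have hx0 : (0:ℝ) ≤ x := by linarith
    obtain ⟨b1, b2⟩ := hc x hx
    have q0 := g_bd h1 h2 (j := 0) (by norm_num) hx0
    have q1 := g_bd h1 h2 (j := 1) (by norm_num) hx0
    have q2 := g_bd h1 h2 (j := 2) (by norm_num) hx0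
    have q3 := g_bd h1 h2 (j := 3) (by norm_num) hx0
    set e := DD m * Real.exp (-rr m * x) with he
    have he0 : 0 < e := by positivity
    have s20 : |g m 2 x + g m 0 x| ≤ 2 * e := (abs_add_le _ _).trans (by linarith)
    have s31 : |g m 3 x + g m 1 x| ≤ 2 * e := (abs_add_le _ _).trans (by linarith)
    have k1 : |x * (g m 2 x + g m 0 x) * f1 x| ≤ x * (2 * e) * (c + x) := by
      rw [abs_mul, abs_mul, abs_of_nonneg hx0]
      gcongr
    have k2 : |((g m 2 x + g m 0 x) + x * (g m 3 x + g m 1 x)) * f x| ≤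
        (2 * e + x * (2 * e)) * (c + (c + x) * x) := by
      rw [abs_mul]
      have : |(g m 2 x + g m 0 x) + x * (g m 3 x + g m 1 x)| ≤ 2 * e + x * (2 * e) := by
        refine (abs_add_le _ _).trans ?_
        rw [abs_mul, abs_of_nonneg hx0]
        gcongr
      gcongr
    have k3 : |P x| ≤ x * (2 * e) * (c + x) + (2 * e + x * (2 * e)) * (c + (c + x) * x) := by
      rw [hP]
      exact (abs_sub _ _).trans (add_le_add k1 k2)
    refine k3.trans ?_
    have x2 : x ≤ x ^ 3 := by nlinarith [sq_nonneg (x - 1)]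
    have x3 : x ^ 2 ≤ x ^ 3 := by nlinarith [sq_nonneg (x - 1)]
    have x4 : 1 ≤ x ^ 3 := by nlinarith
    have e1 : x * (2 * e) * (c + x) + (2 * e + x * (2 * e)) * (c + (c + x) * x) =
      e * (2 * (c * x + x ^ 2) + 2 * (1 + x) * (c + c * x + x ^ 2)) := by ring
    have e2 : DD m * (2 * (c + 1) + 4 * (2 * c + 1)) * (x ^ 3 * Real.exp (-rr m * x)) =
      e * ((2 * (c + 1) + 4 * (2 * c + 1)) * x ^ 3) := by rw [he]; ring
    rw [e1, e2]
    apply mul_le_mul_of_nonneg_left _ he0.le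
    have y1 : c * x ≤ c * x ^ 3 := mul_le_mul_of_nonneg_left x2 hc0
    have y2 : c * x ^ 2 ≤ c * x ^ 3 := mul_le_mul_of_nonneg_left x3 hc0
    have y3 : c * 1 ≤ c * x ^ 3 := mul_le_mul_of_nonneg_left x4 hc0
    nlinarith
  have l1 := intervalIntegral_tendsto_integral_Ioi 0 hWi tendsto_id
  have l2 : Tendsto (fun R => P R - -((g m 0 0 + g m 2 0) * a0 f f1)) atTop
      (𝓝 (0 - -((g m 0 0 + g m 2 0) * a0 f f1))) := hinf.sub_const _
  rw [zero_sub, neg_neg] at l2
  refine tendsto_nhds_unique l1 (l2.congr' ?_)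
  filter_upwards [eventually_gt_atTop 0] with R hR
  have hcR : Tendsto P (𝓝[<] R) (𝓝 (P R)) :=
    ((hder R hR).continuousAt.tendsto).mono_left nhdsWithin_le_nhds
  have := intervalIntegral.integral_eq_sub_of_hasDerivAt_of_tendsto hR
    (fun x hx => hder x hx.1)
    ((intervalIntegrable_iff_integrableOn_Ioc_of_le hR.le).mpr (hWi.mono_set fun x hx => hx.1))
    hl0 hcR
  exact this.symm

end Q41.EG
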